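import Pool.Agent.Helper29.QF.PairFacts
import Pool.Agent.Helper84.Lam.Tools61b

/-! The multiplier `jj`, exact modulus, logarithmic derivative, interior bounds. -/

namespace Pool.Agent.Helper29.QF

open Complex Metric Set Polynomial
open Pool.Agent.Helper81.QF
open Pool.Agent.Helper84.Lam (YD lamD LL L1 F3 T3 ps lamD_ne_zero lamD_ne_one YD_lower diff_lamD)

lemma thD_same : Pool.Agent.Helper81.QF.thD = Pool.Agent.Helper84.Lam.thD := rfl

lemma hD_pos (v : ℂ) : 0 < hD v := by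
  unfold hD
  positivity

lemma hD_one_le (v : ℂ) : 1 ≤ hD v := by
  unfold hD
  have := norm_nonneg (lamD v)
  have := norm_nonneg (1 - lamD v)
  linarith

lemma hD_eq (v : ℂ) : hD v = Real.exp (Pool.Agent.Helper84.Lam.Hl v) := by
  unfold Pool.Agent.Helper84.Lam.Hl
  exact (Real.exp_log (hD_pos v)).symm

lemma one_sub_lamD_ne {w : ℂ} (h : ‖w‖ < 1) : 1 - lamD w ≠ 0 := sub_ne_zero.2 (lamD_ne_one h).symm

lemma ee_pos (l : ℕ) {v : ℂ} (h : ‖v‖ < 1) : 0 < ee l v := by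
  unfold ee
  exact mul_pos (norm_pos_iff.2 (one_sub_lamD_ne h)) (pow_pos (hD_pos v) l)

lemma L0 {w : ℂ} (h : ‖w‖ < 1) :
    (1 - ‖w‖ ^ 2) * ‖Pool.Agent.Helper81.QF.thD w‖ * hD w = 2 * Real.pi * YD w := by
  rw [hD_eq, thD_same]
  exact (Pool.Agent.Helper84.Lam.T_L0 h).symm

lemma thD_ne' {w : ℂ} (h : ‖w‖ < 1) : Pool.Agent.Helper81.QF.thD w ≠ 0 :=
  Pool.Agent.Helper84.Lam.thD_ne h

section
variable {m : ℕ} {b d : ℂ[X]}

/-- composition of a function on the unit disc with `B` is analytic near the closed disc -/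
lemma comp_an (h : Pair m b d) {F : ℂ → ℂ} (hF : ∀ w : ℂ, ‖w‖ < 1 → DifferentiableAt ℂ F w) :
    AnalyticOnNhd ℂ (fun z => F (Bq b d z)) (closedBall 0 1) := by
  intro z hz
  have hz' : ‖z‖ ≤ 1 := by simpa using hz
  have h1 : AnalyticAt ℂ F (Bq b d z) := by
    have h2 : DifferentiableOn ℂ F (ball 0 1) := fun w hw =>
      (hF w (by simpa using hw)).differentiableWithinAt
    exact h2.analyticAt (isOpen_ball.mem_nhds (by simpa using Bq_lt h hz'))
  exact h1.fun_comp (Bq_an h z hz)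

lemma d_an (d : ℂ[X]) : AnalyticOnNhd ℂ (fun z => d.eval z) (closedBall 0 1) := poly_an d _

lemma jj_an (h : Pair m b d) (l : ℕ) : AnalyticOnNhd ℂ (jj l b d) (closedBall 0 1) := by
  intro z hz
  have hz' : ‖z‖ ≤ 1 := by simpa using hz
  have h1 := comp_an h (F := Pool.Agent.Helper81.QF.thD)
    (fun w hw => Pool.Agent.Helper84.Lam.diff_thD hw) z hz
  have h2 := comp_an h (F := lamD) (fun w hw => diff_lamD hw) z hz
  have h3 : d.eval z ^ 2 ≠ 0 := pow_ne_zero _ (h.ne z hz')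
  exact ((h1.div ((d_an d z hz).pow 2) h3).pow l).div (analyticAt_const.sub h2)
    (one_sub_lamD_ne (Bq_lt h hz'))

lemma jj_ne (h : Pair m b d) (l : ℕ) {z : ℂ} (hz : ‖z‖ ≤ 1) : jj l b d z ≠ 0 := by
  unfold jj
  exact div_ne_zero (pow_ne_zero _ (div_ne_zero (thD_ne' (Bq_lt h hz))
    (pow_ne_zero _ (h.ne z hz)))) (one_sub_lamD_ne (Bq_lt h hz))

/-- exact modulus of the multiplier on the closed disc -/
theorem jj_norm (h : Pair m b d) (l : ℕ) {z : ℂ} (hz : ‖z‖ ≤ 1) :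
    ‖jj l b d z‖ * ee l (Bq b d z) * dl b d z ^ l = (2 * Real.pi * YD (Bq b d z)) ^ l := by
  have hB := Bq_lt h hz
  have h0 := L0 hB
  have h1 := one_sub_Bq h hz
  have hd : 0 < ‖d.eval z‖ := norm_pos_iff.2 (h.ne z hz)
  have hl : ‖1 - lamD (Bq b d z)‖ ≠ 0 := norm_ne_zero_iff.2 (one_sub_lamD_ne hB)
  rw [← h0, h1]
  unfold jj ee
  rw [norm_div, norm_pow, norm_div, norm_pow]
  set t := ‖Pool.Agent.Helper81.QF.thD (Bq b d z)‖
  set x := ‖1 - lamD (Bq b d z)‖
  set a := hD (Bq b d z)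
  set e := ‖d.eval z‖
  set w := dl b d z
  have e1 : (t / e ^ 2) ^ l / x * (x * a ^ l) * w ^ l = ((t / e ^ 2) * a * w) ^ l := by
    rw [mul_pow, mul_pow]
    field_simp
  rw [e1]
  congr 1
  field_simp

lemma ee_ne (l : ℕ) (h : Pair m b d) {z : ℂ} (hz : ‖z‖ ≤ 1) : ee l (Bq b d z) ≠ 0 :=
  (ee_pos l (Bq_lt h hz)).ne'

/-- logarithmic form -/
theorem log_jj (h : Pair m b d) (l : ℕ) {z : ℂ} (hz : ‖z‖ ≤ 1) :
    Real.log ‖jj l b d z‖ = l * Real.log (2 * Real.pi * YD (Bq b d z)) - l * Real.log (dl b d z) -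
      Real.log (ee l (Bq b d z)) := by
  have h1 := jj_norm h l hz
  have hY : 0 < 2 * Real.pi * YD (Bq b d z) := by
    have := YD_lower (Bq_lt h hz)
    have := Real.pi_pos
    positivity
  have hj : 0 < ‖jj l b d z‖ := norm_pos_iff.2 (jj_ne h l hz)
  have he := ee_pos l (Bq_lt h hz)
  have hd := dl_pos h hz
  have h2 := congrArg Real.log h1
  rw [Real.log_mul (by positivity) (by positivity), Real.log_mul hj.ne' he.ne', Real.log_pow,
    Real.log_pow] at h2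
  linarith

/-- the V-inequality in the form with `jj` -/
theorem V_iff (h : Pair m b d) (l : ℕ) {z : ℂ} (hz : ‖z‖ ≤ 1) (K : ℝ) (p f : ℝ) :
    p * ee l (Bq b d z) ≤ K * f ↔
      p * (2 * Real.pi * YD (Bq b d z)) ^ l ≤ K * (f * ‖jj l b d z‖ * dl b d z ^ l) := by
  have h1 := jj_norm h l hz
  have hj : 0 < ‖jj l b d z‖ := norm_pos_iff.2 (jj_ne h l hz)
  have hd := pow_pos (dl_pos h hz) l
  rw [← h1]
  constructor
  · intro h2
    have h3 := mul_le_mul_of_nonneg_right h2 (mul_pos hj hd).le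
    nlinarith
  · intro h2
    have h3 : (p * ee l (Bq b d z)) * (‖jj l b d z‖ * dl b d z ^ l) ≤
        (K * f) * (‖jj l b d z‖ * dl b d z ^ l) := by nlinarith
    exact le_of_mul_le_mul_right h3 (mul_pos hj hd)

/-- the logarithmic derivative of a composition `F(B)` -/
lemma comp_deriv (h : Pair m b d) {F : ℂ → ℂ} (hF : ∀ w : ℂ, ‖w‖ < 1 → DifferentiableAt ℂ F w)
    {z : ℂ} (hz : ‖z‖ ≤ 1) :
    HasDerivAt (fun z => F (Bq b d z)) (deriv F (Bq b d z) * deriv (Bq b d) z) z := by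
  have h1 := (hF _ (Bq_lt h hz)).hasDerivAt
  have h2 : HasDerivAt (Bq b d) (deriv (Bq b d) z) z := by
    rw [deriv_Bq h hz]; exact hasDeriv_Bq h hz
  exact h1.comp z h2

/-- bound of the derivative of a composition on the circle and inside -/
lemma comp_deriv_le (h : Pair m b d) {F : ℂ → ℂ}
    (hF : ∀ w : ℂ, ‖w‖ < 1 → DifferentiableAt ℂ F w) {C : ℝ}
    (hC : ∀ w : ℂ, ‖w‖ < 1 → (1 - ‖w‖ ^ 2) * ‖deriv F w‖ ≤ C * YD w) {s U : ℝ} (hs0 : 0 ≤ s)
    (hC0 : 0 ≤ C)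
    (hs : ∀ z : ℂ, ‖z‖ = 1 → ‖nN b d z‖ ≤ s * dl b d z)
    (hU : ∀ z : ℂ, ‖z‖ = 1 → YD (Bq b d z) ≤ U) {z : ℂ} (hz : ‖z‖ ≤ 1) :
    ‖deriv F (Bq b d z) * deriv (Bq b d) z‖ ≤ C * U * s := by
  have han : AnalyticOnNhd ℂ (fun z => deriv F (Bq b d z) * deriv (Bq b d) z)
      (closedBall 0 1) := by
    have h1 : ∀ w : ℂ, ‖w‖ < 1 → DifferentiableAt ℂ (deriv F) w := by
      intro w hw
      have h2 : DifferentiableOn ℂ F (ball 0 1) := fun w hw =>
        (hF w (by simpa using hw)).differentiableWithinAt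
      exact (h2.deriv isOpen_ball).differentiableAt (isOpen_ball.mem_nhds (by simpa using hw))
    exact (comp_an h h1).mul (Bq_an h).deriv
  refine Pool.Agent.Helper58.LD.norm_le_of_circle han (fun w hw => ?_) hz
  have hB := Bq_lt h hw.le
  have h1 := speed_Bq h hs hw.le
  have h2 := hC _ hB
  have h3 := hU w hw
  rw [norm_mul]
  have hn := norm_nonneg (deriv F (Bq b d w))
  calc ‖deriv F (Bq b d w)‖ * ‖deriv (Bq b d) w‖ ≤
      ‖deriv F (Bq b d w)‖ * (s * (1 - ‖Bq b d w‖ ^ 2)) := mul_le_mul_of_nonneg_left h1 hn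
    _ = s * ((1 - ‖Bq b d w‖ ^ 2) * ‖deriv F (Bq b d w)‖) := by ring
    _ ≤ s * (C * YD (Bq b d w)) := mul_le_mul_of_nonneg_left h2 hs0
    _ ≤ s * (C * U) := mul_le_mul_of_nonneg_left (mul_le_mul_of_nonneg_left h3 hC0) hs0
    _ = C * U * s := by ring

/-- logarithmic derivative of the multiplier -/
theorem jj_deriv (h : Pair m b d) (l : ℕ) {s U : ℝ} (hs0 : 0 ≤ s)
    (hs : ∀ z : ℂ, ‖z‖ = 1 → ‖nN b d z‖ + ‖vV b d z‖ ≤ s * dl b d z)
    (hU : ∀ z : ℂ, ‖z‖ = 1 → YD (Bq b d z) ≤ U) {z : ℂ} (hz : ‖z‖ ≤ 1) :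
    ‖deriv (jj l b d) z‖ ≤ (8403 * l + 7) * U * s * ‖jj l b d z‖ := by
  have hs' : ∀ z : ℂ, ‖z‖ = 1 → ‖nN b d z‖ ≤ s * dl b d z := fun w hw => by
    have := hs w hw
    have := norm_nonneg (vV b d w)
    linarith
  have hU1 : 0.8 ≤ U := (YD_lower (Bq_lt h (z := 1) (by simp))).trans (hU 1 (by simp))
  have hB := Bq_lt h hz
  have hF3 := (Pool.Agent.Helper84.Lam.F3_spec).1
  have hL1 := (Pool.Agent.Helper84.Lam.L1_spec).1
  -- jj = exp (l F3(B) - L1(B)) / d^(2l)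
  have hrep : ∀ w : ℂ, ‖w‖ ≤ 1 → jj l b d w =
      cexp ((l : ℂ) * F3 (Bq b d w) - L1 (Bq b d w)) / d.eval w ^ (2 * l) := by
    intro w hw
    have hBw := Bq_lt h hw
    unfold jj
    rw [Complex.exp_sub, Complex.exp_nat_mul, Pool.Agent.Helper84.Lam.exp_F3 hBw,
      Pool.Agent.Helper84.Lam.exp_L1 hBw, thD_same, div_pow, ← pow_mul]
    have h1 := one_sub_lamD_ne hBw
    have h2 := pow_ne_zero (2 * l) (h.ne w hw)
    field_simp
  have ha := comp_deriv h hF3 hz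
  have hb := comp_deriv h hL1 hz
  have hd := d.hasDerivAt z
  have hdne := h.ne z hz
  -- derivative of the representation; the representation holds in a neighbourhood
  have hnhd : ∀ᶠ w in nhds z, jj l b d w =
      cexp ((l : ℂ) * F3 (Bq b d w) - L1 (Bq b d w)) / d.eval w ^ (2 * l) := by
    have hc1 : ∀ᶠ w in nhds z, ‖Bq b d w‖ < 1 := by
      have hcont : ContinuousAt (Bq b d) z := (hasDeriv_Bq h hz).continuousAt
      exact hcont.norm.eventually_lt continuousAt_const hB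
    have hc2 : ∀ᶠ w in nhds z, d.eval w ≠ 0 := d.continuous.continuousAt.eventually_ne hdne
    filter_upwards [hc1, hc2] with w h1 h2
    unfold jj
    rw [Complex.exp_sub, Complex.exp_nat_mul, Pool.Agent.Helper84.Lam.exp_F3 h1,
      Pool.Agent.Helper84.Lam.exp_L1 h1, thD_same, div_pow, ← pow_mul]
    have h3 := one_sub_lamD_ne h1
    have h4 := pow_ne_zero (2 * l) h2
    field_simp
  have hD1 := ((ha.const_mul (l : ℂ)).sub hb).cexp.div (hd.pow (2 * l)) (pow_ne_zero (2 * l) hdne)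
  have hD2 := (hD1.congr_of_eventuallyEq hnhd).deriv
  simp only [Pi.pow_apply, Pi.sub_apply] at hD2
  have hkey : deriv (jj l b d) z = jj l b d z *
      (((l : ℂ) * (deriv F3 (Bq b d z) * deriv (Bq b d) z) -
        deriv L1 (Bq b d z) * deriv (Bq b d) z) -
        ((2 * l : ℕ) : ℂ) * ((derivative d).eval z / d.eval z)) := by
    rw [hD2, hrep z hz]
    rcases Nat.eq_zero_or_pos l with h0 | h0
    · subst h0
      simp
    · obtain ⟨k, hk⟩ : ∃ k, 2 * l = k + 1 := ⟨2 * l - 1, by omega⟩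
      rw [hk]
      simp only [Nat.add_sub_cancel]
      have h5 := pow_ne_zero (k + 1) hdne
      field_simp
      ring
  rw [hkey, norm_mul, mul_comm]
  refine mul_le_mul_of_nonneg_right ?_ (norm_nonneg _)
  have b1 := comp_deriv_le h hF3 (C := 8400) (fun w hw => Pool.Agent.Helper84.Lam.T_L2_three hw)
    hs0 (by norm_num) hs' hU hz
  have b2 := comp_deriv_le h hL1 (C := 2 * Real.pi) (fun w hw => Pool.Agent.Helper84.Lam.speed_L1 hw)
    hs0 (by positivity) hs' hU hz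
  have b3 := speed_d h hs hz
  have b3' : ‖(derivative d).eval z / d.eval z‖ ≤ s := by
    rw [norm_div, div_le_iff₀ (norm_pos_iff.2 hdne)]
    exact b3
  have hpi : Real.pi < 3.15 := Real.pi_lt_d2
  have hl0 : (0 : ℝ) ≤ l := Nat.cast_nonneg l
  calc ‖((l : ℂ) * (deriv F3 (Bq b d z) * deriv (Bq b d) z) -
        deriv L1 (Bq b d z) * deriv (Bq b d) z) -
        ((2 * l : ℕ) : ℂ) * ((derivative d).eval z / d.eval z)‖
      ≤ (l * (8400 * U * s) + 2 * Real.pi * U * s) + 2 * l * s := by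
        refine (norm_sub_le _ _).trans (add_le_add ((norm_sub_le _ _).trans (add_le_add ?_ b2)) ?_)
        · rw [norm_mul, Complex.norm_natCast]
          exact mul_le_mul_of_nonneg_left b1 hl0
        · rw [norm_mul, Complex.norm_natCast]
          push_cast
          exact mul_le_mul_of_nonneg_left b3' (by positivity)
    _ ≤ (8403 * l + 7) * U * s := by
        have hUs : 0 ≤ U * s := mul_nonneg (by linarith) hs0
        have h6 : s ≤ 1.25 * (U * s) := by nlinarith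
        have h7 : 2 * l * s ≤ 2.5 * l * (U * s) := by nlinarith
        have h8 : 2 * Real.pi * U * s ≤ 6.3 * (U * s) := by nlinarith
        nlinarith [mul_nonneg hl0 hUs]

/-- interior bounds for the logarithms -/
theorem LL_inner (h : Pair m b d) {U : ℝ} (hU : ∀ z : ℂ, ‖z‖ = 1 → YD (Bq b d z) ≤ U)
    {z : ℂ} (hz : ‖z‖ ≤ 1) :
    |(LL (Bq b d z)).re| ≤ 7 * U ∧ |(L1 (Bq b d z)).re| ≤ 7 * U := by
  have hLL := (Pool.Agent.Helper84.Lam.LL_spec).1
  have hL1 := (Pool.Agent.Helper84.Lam.L1_spec).1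
  have key : ∀ F : ℂ → ℂ, (∀ w : ℂ, ‖w‖ < 1 → DifferentiableAt ℂ F w) →
      (∀ w : ℂ, ‖w‖ < 1 → |(F w).re| ≤ 7 * YD w) → |(F (Bq b d z)).re| ≤ 7 * U := by
    intro F hF hb
    have h1 := Pool.Agent.Helper58.LD.re_le_of_circle (comp_an h hF) (M := 7 * U) (fun w hw => by
      have := (abs_le.1 (hb _ (Bq_lt h hw.le))).2
      have := hU w hw
      linarith) hz
    have h2 := Pool.Agent.Helper58.LD.re_le_of_circle (comp_an h hF).neg (M := 7 * U) (fun w hw => by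
      have := (abs_le.1 (hb _ (Bq_lt h hw.le))).1
      have := hU w hw
      simp only [Pi.neg_apply, Complex.neg_re]
      linarith) hz
    simp only [Pi.neg_apply, Complex.neg_re] at h2
    rw [abs_le]
    constructor <;> linarith
  constructor
  · refine key LL hLL (fun w hw => ?_)
    rw [Pool.Agent.Helper84.Lam.re_LL hw]
    exact (Pool.Agent.Helper84.Lam.log_le_YD hw).1
  · refine key L1 hL1 (fun w hw => ?_)
    rw [Pool.Agent.Helper84.Lam.re_L1 hw]
    exact (Pool.Agent.Helper84.Lam.log_le_YD hw).2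

/-- interior bound for the height -/
theorem YD_inner (h : Pair m b d) {U : ℝ} (hU : ∀ z : ℂ, ‖z‖ = 1 → YD (Bq b d z) ≤ U)
    {z : ℂ} (hz : ‖z‖ ≤ 1) : YD (Bq b d z) ≤ 38 * U := by
  have hU1 : 0.8 ≤ U := (YD_lower (Bq_lt h (z := 1) (by simp))).trans (hU 1 (by simp))
  have h1 := Pool.Agent.Helper84.Lam.YD_le_log (Bq_lt h hz)
  have h2 := LL_inner h hU hz
  rw [Pool.Agent.Helper84.Lam.re_LL (Bq_lt h hz), Pool.Agent.Helper84.Lam.re_L1 (Bq_lt h hz)] at h2
  linarith [h2.1, h2.2]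

end

end Pool.Agent.Helper29.QF
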