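import Pool.Agent.Helper58.LD.MaxP

/-! Bounds by powers of `1 - |B|^2` pass from the circle to the disc. -/

namespace Pool.Agent.Helper29.QF

open Complex Metric Set

lemma one_sub_pos {a b : ℂ} (ha : ‖a‖ < 1) (hb : ‖b‖ < 1) : 1 - (starRingEnd ℂ) a * b ≠ 0 := by
  intro h
  have h1 : (starRingEnd ℂ) a * b = 1 := by linear_combination -h
  have h2 : ‖a‖ * ‖b‖ = 1 := by
    rw [← Complex.norm_conj a, ← norm_mul, h1, norm_one]
  have := norm_nonneg a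
  have := norm_nonneg b
  nlinarith

lemma mob_identity (a b : ℂ) : ‖1 - (starRingEnd ℂ) a * b‖ ^ 2 - ‖b - a‖ ^ 2 =
    (1 - ‖a‖ ^ 2) * (1 - ‖b‖ ^ 2) := by
  simp only [← Complex.normSq_eq_norm_sq, Complex.normSq_apply]
  simp only [Complex.sub_re, Complex.sub_im, Complex.mul_re, Complex.mul_im, Complex.one_re,
    Complex.one_im, Complex.conj_re, Complex.conj_im]
  ring

lemma mob_le (a b : ℂ) : (1 - ‖a‖ ^ 2) * (1 - ‖b‖ ^ 2) ≤ ‖1 - (starRingEnd ℂ) a * b‖ ^ 2 := by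
  rw [← mob_identity a b]
  have := sq_nonneg ‖b - a‖
  linarith

/-- A bound by a power of `1 - |B|^2` on the circle holds inside. -/
theorem inner_of_circle {A B : ℂ → ℂ} (hA : AnalyticOnNhd ℂ A (closedBall 0 1))
    (hB : AnalyticOnNhd ℂ B (closedBall 0 1)) (hB1 : ∀ z : ℂ, ‖z‖ ≤ 1 → ‖B z‖ < 1) {M : ℝ}
    {l : ℕ} (h : ∀ z : ℂ, ‖z‖ = 1 → ‖A z‖ ≤ M * (1 - ‖B z‖ ^ 2) ^ l) {z : ℂ} (hz : ‖z‖ ≤ 1) :
    ‖A z‖ ≤ M * (1 - ‖B z‖ ^ 2) ^ l := by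
  set a := B z with ha
  have ha1 : ‖a‖ < 1 := hB1 z hz
  have hpos : ∀ w : ℂ, ‖w‖ < 1 → 0 < 1 - ‖w‖ ^ 2 := by
    intro w hw
    have := norm_nonneg w
    nlinarith
  have hM : 0 ≤ M := by
    have h1 := h 1 (by simp)
    have h2 : 0 < (1 - ‖B 1‖ ^ 2) ^ l := pow_pos (hpos _ (hB1 1 (by simp))) l
    by_contra hneg
    have h3 : M * (1 - ‖B 1‖ ^ 2) ^ l < 0 := mul_neg_of_neg_of_pos (not_le.1 hneg) h2
    have := norm_nonneg (A 1)
    linarith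
  have hne : ∀ w : ℂ, ‖w‖ ≤ 1 → 1 - (starRingEnd ℂ) a * B w ≠ 0 := fun w hw =>
    one_sub_pos ha1 (hB1 w hw)
  have hg : AnalyticOnNhd ℂ (fun w => A w *
      ((((1 - ‖a‖ ^ 2 : ℝ) : ℂ)) / (1 - (starRingEnd ℂ) a * B w)) ^ (2 * l)) (closedBall 0 1) := by
    intro w hw
    have hw' : ‖w‖ ≤ 1 := by simpa using hw
    exact (hA w hw).mul ((analyticAt_const.div
      (analyticAt_const.sub (analyticAt_const.mul (hB w hw))) (hne w hw')).pow _)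
  have key := Pool.Agent.Helper58.LD.norm_le_of_circle hg (M := M * (1 - ‖a‖ ^ 2) ^ l)
    (fun w hw => ?_) hz
  · rw [norm_mul, norm_pow, norm_div, Complex.norm_real,
      Real.norm_of_nonneg (hpos a ha1).le] at key
    have h4 : 1 - (starRingEnd ℂ) a * B z = ((1 - ‖a‖ ^ 2 : ℝ) : ℂ) := by
      rw [← ha, Complex.conj_mul']; push_cast; ring
    rw [h4, Complex.norm_real, Real.norm_of_nonneg (hpos a ha1).le,
      div_self (hpos a ha1).ne', one_pow, mul_one] at key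
    exact key
  · rw [norm_mul, norm_pow, norm_div, Complex.norm_real, Real.norm_of_nonneg (hpos a ha1).le]
    have hw1 : ‖B w‖ < 1 := hB1 w hw.le
    have hn : 0 < ‖1 - (starRingEnd ℂ) a * B w‖ := norm_pos_iff.2 (hne w hw.le)
    have h5 : (1 - ‖B w‖ ^ 2) * ((1 - ‖a‖ ^ 2) / ‖1 - (starRingEnd ℂ) a * B w‖) ^ 2 ≤
        1 - ‖a‖ ^ 2 := by
      have h6 := mob_le a (B w)
      rw [div_pow, ← mul_div_assoc, div_le_iff₀ (by positivity)]
      have h7 := mul_le_mul_of_nonneg_left h6 (hpos a ha1).le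
      nlinarith
    calc ‖A w‖ * ((1 - ‖a‖ ^ 2) / ‖1 - (starRingEnd ℂ) a * B w‖) ^ (2 * l)
        ≤ (M * (1 - ‖B w‖ ^ 2) ^ l) *
          ((1 - ‖a‖ ^ 2) / ‖1 - (starRingEnd ℂ) a * B w‖) ^ (2 * l) :=
          mul_le_mul_of_nonneg_right (h w hw) (by
            have := (hpos a ha1).le
            positivity)
      _ = M * ((1 - ‖B w‖ ^ 2) * ((1 - ‖a‖ ^ 2) / ‖1 - (starRingEnd ℂ) a * B w‖) ^ 2) ^ l := by
          rw [mul_pow, ← pow_mul]; ring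
      _ ≤ M * (1 - ‖a‖ ^ 2) ^ l := by
          refine mul_le_mul_of_nonneg_left (pow_le_pow_left₀ ?_ h5 l) hM
          exact mul_nonneg (hpos _ hw1).le (by positivity)

/-- The hyperbolic speed inside is at most its maximum on the circle. -/
theorem speed_inner {B : ℂ → ℂ} (hB : AnalyticOnNhd ℂ B (closedBall 0 1))
    (hB1 : ∀ z : ℂ, ‖z‖ ≤ 1 → ‖B z‖ < 1) {s : ℝ}
    (h : ∀ z : ℂ, ‖z‖ = 1 → ‖deriv B z‖ ≤ s * (1 - ‖B z‖ ^ 2)) {z : ℂ} (hz : ‖z‖ ≤ 1) :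
    ‖deriv B z‖ ≤ s * (1 - ‖B z‖ ^ 2) := by
  have h1 := inner_of_circle (A := deriv B) hB.deriv hB hB1 (M := s) (l := 1)
    (fun w hw => by simpa using h w hw) hz
  simpa using h1

end Pool.Agent.Helper29.QF
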