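import Pool.Agent.Helper58.LD.PolyDeriv

/-! Cut-offs: convolution of a bounded function on the unit circle with a power of the Fejer
kernel. The result is `z ^ (-p(n-1))` times a polynomial of degree at most `2p(n-1)`. -/

namespace Pool.Agent.Helper29.QF

open Complex Polynomial MeasureTheory Real Set

/-- the geometric sum -/
noncomputable def gS (n : ℕ) : ℂ[X] := ∑ j ∈ Finset.range n, (X : ℂ[X]) ^ j

/-- the kernel as polynomial -/
noncomputable def kP (n p : ℕ) : ℂ[X] := gS n ^ (2 * p)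

/-- half of the degree -/
def kd (n p : ℕ) : ℕ := p * (n - 1)

/-- the mean of the kernel -/
noncomputable def kM (n p : ℕ) : ℝ := circleAverage (fun w => ‖(gS n).eval w‖ ^ (2 * p)) 0 1

/-- the cut-off as polynomial (times `z ^ kd`) -/
noncomputable def chi (n p : ℕ) (v : ℂ → ℝ) : ℂ[X] :=
  ∑ k ∈ Finset.range (2 * kd n p + 1),
    C ((kP n p).coeff k * ((kM n p : ℝ) : ℂ)⁻¹ *
      circleAverage (fun w => w ^ kd n p * (w⁻¹) ^ k * (v w : ℂ)) 0 1) * X ^ k

/-- the real cut-off function -/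
noncomputable def cf (n p : ℕ) (v : ℂ → ℝ) (z : ℂ) : ℝ :=
  (kM n p)⁻¹ * circleAverage (fun w => ‖(gS n).eval (z * w⁻¹)‖ ^ (2 * p) * v w) 0 1

lemma gS_eval (n : ℕ) (z : ℂ) : (gS n).eval z = ∑ j ∈ Finset.range n, z ^ j := by
  unfold gS
  rw [Polynomial.eval_finsetSum]
  simp

lemma gS_natDegree (n : ℕ) : (gS n).natDegree ≤ n - 1 := by
  unfold gS
  refine Polynomial.natDegree_sum_le_of_forall_le _ _ (fun i hi => ?_)
  rw [Polynomial.natDegree_X_pow]
  have := Finset.mem_range.1 hi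
  omega

lemma kP_natDegree (n p : ℕ) : (kP n p).natDegree ≤ 2 * kd n p := by
  unfold kP kd
  refine Polynomial.natDegree_pow_le.trans ?_
  have := gS_natDegree n
  calc 2 * p * (gS n).natDegree ≤ 2 * p * (n - 1) := Nat.mul_le_mul_left _ this
    _ = 2 * (p * (n - 1)) := by ring

lemma circ_ne {w : ℂ} (hw : ‖w‖ = 1) : w ≠ 0 := by
  intro h; rw [h, norm_zero] at hw; norm_num at hw

lemma circ_conj {w : ℂ} (hw : ‖w‖ = 1) : (starRingEnd ℂ) w = w⁻¹ := by
  rw [Complex.inv_def, Complex.normSq_eq_norm_sq, hw]; simp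

lemma gS_sq {n : ℕ} {u : ℂ} (hu : ‖u‖ = 1) :
    (gS n).eval u ^ 2 = u ^ (n - 1) * ((‖(gS n).eval u‖ ^ 2 : ℝ) : ℂ) := by
  have hu0 := circ_ne hu
  have h1 : u ^ (n - 1) * (starRingEnd ℂ) ((gS n).eval u) = (gS n).eval u := by
    rw [gS_eval, map_sum, Finset.mul_sum, ← Finset.sum_range_reflect]
    refine Finset.sum_congr rfl (fun j hj => ?_)
    have hj := Finset.mem_range.1 hj
    rw [map_pow, circ_conj hu]
    have : u ^ (n - 1) = u ^ j * u ^ (n - 1 - j) := by rw [← pow_add]; congr 1; omega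
    rw [this, inv_pow, mul_assoc, mul_inv_cancel₀ (pow_ne_zero _ hu0), mul_one]
  push_cast
  rw [← Complex.conj_mul', ← mul_assoc, h1, pow_two]

lemma kP_eval {n p : ℕ} {u : ℂ} (hu : ‖u‖ = 1) :
    (kP n p).eval u = u ^ kd n p * ((‖(gS n).eval u‖ ^ (2 * p) : ℝ) : ℂ) := by
  unfold kP kd
  rw [Polynomial.eval_pow, pow_mul, gS_sq hu, mul_pow]
  congr 1
  · rw [← pow_mul, mul_comm]
  · push_cast; rw [← pow_mul]

/-- Rotation (and inversion) invariance. -/
lemma avg_rot {E : Type*} [NormedAddCommGroup E] [NormedSpace ℝ E] (f : ℂ → E) {z : ℂ}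
    (hz : ‖z‖ = 1) : circleAverage (fun w => f (z * w⁻¹)) 0 1 = circleAverage f 0 1 := by
  rw [circleAverage_def, circleAverage_def]
  congr 1
  have h1 : ∀ t : ℝ, z * (circleMap 0 1 t)⁻¹ = circleMap 0 1 (Complex.arg z - t) := by
    intro t
    rw [circleMap_zero, circleMap_zero]
    have hz' : z = cexp (Complex.arg z * I) := by
      have := Complex.norm_mul_exp_arg_mul_I z
      rw [hz] at this
      simpa using this.symm
    conv_lhs => rw [hz']
    push_cast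
    rw [one_mul, one_mul, ← Complex.exp_neg, ← Complex.exp_add]
    congr 1
    ring
  have h2 : (fun t : ℝ => f (z * (circleMap 0 1 t)⁻¹)) =
      fun t => (fun s => f (circleMap 0 1 s)) (Complex.arg z - t) := by
    funext t; rw [h1 t]
  rw [h2, intervalIntegral.integral_comp_sub_left (fun s => f (circleMap 0 1 s)) (Complex.arg z)]
  have hper : Function.Periodic (fun s : ℝ => f (circleMap 0 1 s)) (2 * π) := by
    intro s; simp only; rw [periodic_circleMap 0 1 s]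
  have := hper.intervalIntegral_add_eq (Complex.arg z - 2 * π) 0
  rw [sub_add_cancel, zero_add] at this
  rw [sub_zero]
  exact this

/-- positivity and lower bound of the mean of the kernel -/
lemma kM_lower {n : ℕ} (hn : 1 ≤ n) (p : ℕ) :
    ((n : ℝ) / 2) ^ (2 * p) / (2 * π * n) ≤ kM n p := by
  have hn0 : (0 : ℝ) < n := by exact_mod_cast hn
  have hn1 : (1 : ℝ) ≤ n := by exact_mod_cast hn
  unfold kM
  rw [circleAverage_def, smul_eq_mul]
  have hcont : Continuous (fun t : ℝ => ‖(gS n).eval (circleMap 0 1 t)‖ ^ (2 * p)) := by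
    exact (((gS n).continuous.comp (continuous_circleMap 0 1)).norm).pow _
  have hsub : (∫ t in (0:ℝ)..(1 / n), ‖(gS n).eval (circleMap 0 1 t)‖ ^ (2 * p)) ≤
      ∫ t in (0:ℝ)..(2 * π), ‖(gS n).eval (circleMap 0 1 t)‖ ^ (2 * p) := by
    refine intervalIntegral.integral_mono_interval le_rfl (by positivity) ?_ ?_
      (hcont.intervalIntegrable _ _)
    · have h1 : 1 / (n : ℝ) ≤ 1 := by rw [div_le_one hn0]; exact hn1
      have h2 := Real.pi_gt_three
      linarith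
    · exact Filter.Eventually.of_forall (fun t => by positivity)
  have hlow : (1 / (n : ℝ)) * ((n : ℝ) / 2) ^ (2 * p) ≤
      ∫ t in (0:ℝ)..(1 / n), ‖(gS n).eval (circleMap 0 1 t)‖ ^ (2 * p) := by
    have h0 : (∫ _ in (0:ℝ)..(1 / n), ((n : ℝ) / 2) ^ (2 * p)) =
        (1 / (n : ℝ)) * ((n : ℝ) / 2) ^ (2 * p) := by simp
    rw [← h0]
    refine intervalIntegral.integral_mono_on (by positivity) (by simp)
      (hcont.intervalIntegrable _ _) ?_
    intro t ht
    refine pow_le_pow_left₀ (by positivity) ?_ _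
    have hre : (n : ℝ) / 2 ≤ ((gS n).eval (circleMap 0 1 t)).re := by
      rw [gS_eval, Complex.re_sum]
      have h3 : ∀ j ∈ Finset.range n, (1:ℝ) / 2 ≤ ((circleMap 0 1 t) ^ j).re := by
        intro j hj
        have hj := Finset.mem_range.1 hj
        rw [circleMap_zero]
        push_cast
        rw [one_mul, ← Complex.exp_nat_mul]
        have h4 : (j : ℂ) * (t * I) = ((j * t : ℝ) : ℂ) * I := by push_cast; ring
        rw [h4, Complex.exp_ofReal_mul_I_re]
        have h5 : (j : ℝ) * t ≤ 1 := by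
          have h6 : (j : ℝ) ≤ n := by exact_mod_cast hj.le
          calc (j : ℝ) * t ≤ n * (1 / n) := by
                exact mul_le_mul h6 ht.2 ht.1 hn0.le
            _ = 1 := by field_simp
        have h7 : 0 ≤ (j : ℝ) * t := mul_nonneg (Nat.cast_nonneg _) ht.1
        have h8 := Real.one_sub_sq_div_two_le_cos (x := (j : ℝ) * t)
        nlinarith
      have h9 := Finset.sum_le_sum h3
      simp only [Finset.sum_const, Finset.card_range, nsmul_eq_mul] at h9
      linarith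
    exact hre.trans (Complex.re_le_norm _)
  have h10 := hlow.trans hsub
  have hpi := Real.pi_pos
  calc ((n : ℝ) / 2) ^ (2 * p) / (2 * π * n) =
      (2 * π)⁻¹ * ((1 / (n : ℝ)) * ((n : ℝ) / 2) ^ (2 * p)) := by field_simp
    _ ≤ _ := mul_le_mul_of_nonneg_left h10 (by positivity)

lemma kM_pos {n : ℕ} (hn : 1 ≤ n) (p : ℕ) : 0 < kM n p := by
  have hn0 : (0 : ℝ) < n := by exact_mod_cast hn
  have hpi := Real.pi_pos
  exact lt_of_lt_of_le (by positivity) (kM_lower hn p)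

/-- bounded measurable functions are circle integrable -/
lemma circ_int {v : ℂ → ℝ} (hv : Measurable v) {V : ℝ} (hb : ∀ w : ℂ, ‖w‖ = 1 → |v w| ≤ V)
    {g : ℂ → ℂ} (hg : ContinuousOn g (Metric.sphere 0 1)) :
    CircleIntegrable (fun w => g w * (v w : ℂ)) 0 1 := by
  have h1 : CircleIntegrable g 0 1 := hg.circleIntegrable zero_le_one
  have h2 : ∀ (μ : Measure ℝ), AEStronglyMeasurable
      (fun t : ℝ => ((v (circleMap 0 1 t) : ℝ) : ℂ)) μ := fun μ =>
    (Complex.measurable_ofReal.comp (hv.comp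
      (continuous_circleMap 0 1).measurable)).aestronglyMeasurable
  have h3 : ∀ t : ℝ, ‖((v (circleMap 0 1 t) : ℝ) : ℂ)‖ ≤ V := by
    intro t
    rw [Complex.norm_real]
    exact hb _ (by simp)
  exact ⟨Integrable.mul_bdd h1.1 (h2 _) (Filter.Eventually.of_forall h3),
    Integrable.mul_bdd h1.2 (h2 _) (Filter.Eventually.of_forall h3)⟩

lemma circ_int_real {v : ℂ → ℝ} (hv : Measurable v) {V : ℝ} (hb : ∀ w : ℂ, ‖w‖ = 1 → |v w| ≤ V)
    {g : ℂ → ℝ} (hg : ContinuousOn g (Metric.sphere 0 1)) :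
    CircleIntegrable (fun w => g w * v w) 0 1 := by
  have h1 : CircleIntegrable g 0 1 := hg.circleIntegrable zero_le_one
  have h2 : ∀ (μ : Measure ℝ), AEStronglyMeasurable
      (fun t : ℝ => v (circleMap 0 1 t)) μ := fun μ =>
    (hv.comp (continuous_circleMap 0 1).measurable).aestronglyMeasurable
  have h3 : ∀ t : ℝ, ‖v (circleMap 0 1 t)‖ ≤ V := by
    intro t
    exact hb _ (by simp)
  exact ⟨Integrable.mul_bdd h1.1 (h2 _) (Filter.Eventually.of_forall h3),
    Integrable.mul_bdd h1.2 (h2 _) (Filter.Eventually.of_forall h3)⟩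

lemma avg_norm_le {g : ℂ → ℂ} {V : ℝ} (h : ∀ w : ℂ, ‖w‖ = 1 → ‖g w‖ ≤ V) :
    ‖circleAverage g 0 1‖ ≤ V := by
  have hpi := Real.pi_pos
  rw [circleAverage_def, norm_smul, norm_inv, Real.norm_of_nonneg (by positivity)]
  have h1 := intervalIntegral.norm_integral_le_of_norm_le_const (a := 0) (b := 2 * π) (C := V)
    (f := fun t : ℝ => g (circleMap 0 1 t)) (fun t _ => h _ (by simp))
  rw [sub_zero, abs_of_pos (by positivity)] at h1
  calc (2 * π)⁻¹ * ‖∫ t in (0:ℝ)..(2 * π), g (circleMap 0 1 t)‖ ≤ (2 * π)⁻¹ * (V * (2 * π)) :=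
        mul_le_mul_of_nonneg_left h1 (by positivity)
    _ = V := by field_simp

/-- values of the cut-off polynomial -/
lemma chi_eval {n p : ℕ} {v : ℂ → ℝ} (hv : Measurable v) {V : ℝ}
    (hb : ∀ w : ℂ, ‖w‖ = 1 → |v w| ≤ V) (z : ℂ) :
    (chi n p v).eval z = ((kM n p : ℝ) : ℂ)⁻¹ *
      circleAverage (fun w => w ^ kd n p * (kP n p).eval (z * w⁻¹) * (v w : ℂ)) 0 1 := by
  have h1 : ∀ w : ℂ, w ^ kd n p * (kP n p).eval (z * w⁻¹) * (v w : ℂ) =
      ∑ k ∈ Finset.range (2 * kd n p + 1), ((kP n p).coeff k * z ^ k) •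
        (w ^ kd n p * (w⁻¹) ^ k * (v w : ℂ)) := by
    intro w
    rw [Polynomial.eval_eq_sum_range' (Nat.lt_succ_of_le (kP_natDegree n p)), Finset.mul_sum,
      Finset.sum_mul]
    refine Finset.sum_congr rfl (fun k _ => ?_)
    rw [mul_pow, smul_eq_mul]; ring
  have h2 : ∀ k ∈ Finset.range (2 * kd n p + 1), CircleIntegrable
      (fun w : ℂ => ((kP n p).coeff k * z ^ k) • (w ^ kd n p * (w⁻¹) ^ k * (v w : ℂ))) 0 1 := by
    intro k _
    have h3 : ContinuousOn (fun w : ℂ => ((kP n p).coeff k * z ^ k) * (w ^ kd n p * (w⁻¹) ^ k))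
        (Metric.sphere 0 1) := by
      refine continuousOn_const.mul ((continuousOn_id.pow _).mul
        ((continuousOn_id.inv₀ (fun w hw => ?_)).pow _))
      exact circ_ne (by simpa using hw)
    have h4 := circ_int hv hb h3
    refine (circleIntegrable_congr (fun w _ => ?_)).1 h4
    simp only [smul_eq_mul]; ring
  simp_rw [h1]
  rw [circleAverage_fun_sum h2, Finset.mul_sum]
  unfold chi
  rw [Polynomial.eval_finsetSum]
  refine Finset.sum_congr rfl (fun k _ => ?_)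
  rw [circleAverage_fun_smul, smul_eq_mul]
  simp only [Polynomial.eval_mul, Polynomial.eval_C, Polynomial.eval_pow, Polynomial.eval_X]
  ring

lemma chi_natDegree (n p : ℕ) (v : ℂ → ℝ) : (chi n p v).natDegree ≤ 2 * kd n p := by
  unfold chi
  refine Polynomial.natDegree_sum_le_of_forall_le _ _ (fun k hk => ?_)
  refine (Polynomial.natDegree_C_mul_X_pow_le _ _).trans ?_
  have := Finset.mem_range.1 hk
  omega

/-- on the circle the cut-off is real -/
lemma chi_circle {n p : ℕ} {v : ℂ → ℝ} (hv : Measurable v) {V : ℝ}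
    (hb : ∀ w : ℂ, ‖w‖ = 1 → |v w| ≤ V) {z : ℂ} (hz : ‖z‖ = 1) :
    (chi n p v).eval z = z ^ kd n p * (cf n p v z : ℂ) := by
  rw [chi_eval hv hb z]
  unfold cf
  push_cast
  have h1 : circleAverage (fun w => w ^ kd n p * (kP n p).eval (z * w⁻¹) * (v w : ℂ)) 0 1 =
      circleAverage (fun w => (z ^ kd n p) • (((‖(gS n).eval (z * w⁻¹)‖ ^ (2 * p) * v w : ℝ)) : ℂ))
        0 1 := by
    refine circleAverage_congr_sphere (fun w hw => ?_)
    have hw1 : ‖w‖ = 1 := by simpa using hw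
    have hw0 := circ_ne hw1
    have hu : ‖z * w⁻¹‖ = 1 := by rw [norm_mul, norm_inv, hz, hw1]; norm_num
    simp only [smul_eq_mul]
    rw [kP_eval hu, mul_pow, inv_pow]
    push_cast
    have := pow_ne_zero (kd n p) hw0
    field_simp
  rw [h1, circleAverage_fun_smul]
  have h2 : circleAverage (fun w => (((‖(gS n).eval (z * w⁻¹)‖ ^ (2 * p) * v w : ℝ)) : ℂ)) 0 1 =
      ((circleAverage (fun w => ‖(gS n).eval (z * w⁻¹)‖ ^ (2 * p) * v w) 0 1 : ℝ) : ℂ) := by
    rw [circleAverage_def, circleAverage_def, intervalIntegral.integral_ofReal]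
    simp
  rw [h2, smul_eq_mul]
  ring

lemma kern_cont (n p : ℕ) (z : ℂ) :
    ContinuousOn (fun w : ℂ => ‖(gS n).eval (z * w⁻¹)‖ ^ (2 * p)) (Metric.sphere 0 1) := by
  refine ContinuousOn.pow (ContinuousOn.norm ((gS n).continuous.comp_continuousOn
    (continuousOn_const.mul (continuousOn_id.inv₀ (fun w hw => ?_))))) _
  exact circ_ne (by simpa using hw)

lemma cf_const {n : ℕ} (hn : 1 ≤ n) (p : ℕ) (c : ℝ) {z : ℂ} (hz : ‖z‖ = 1) :
    cf n p (fun _ => c) z = c := by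
  unfold cf
  have h1 := avg_rot (fun w => ‖(gS n).eval w‖ ^ (2 * p) * c) hz
  rw [h1]
  have h2 : circleAverage (fun w => ‖(gS n).eval w‖ ^ (2 * p) * c) 0 1 = c * kM n p := by
    have h3 : (fun w : ℂ => ‖(gS n).eval w‖ ^ (2 * p) * c) =
        fun w => c • ‖(gS n).eval w‖ ^ (2 * p) := by
      funext w; rw [smul_eq_mul, mul_comm]
    rw [h3, circleAverage_fun_smul, smul_eq_mul]
    rfl
  rw [h2]
  have := (kM_pos hn p).ne'
  field_simp

lemma cf_mono {n : ℕ} (hn : 1 ≤ n) (p : ℕ) {v w : ℂ → ℝ} (hv : Measurable v) (hw : Measurable w)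
    {V W : ℝ} (hbv : ∀ u : ℂ, ‖u‖ = 1 → |v u| ≤ V) (hbw : ∀ u : ℂ, ‖u‖ = 1 → |w u| ≤ W)
    (h : ∀ u : ℂ, ‖u‖ = 1 → v u ≤ w u) (z : ℂ) : cf n p v z ≤ cf n p w z := by
  unfold cf
  refine mul_le_mul_of_nonneg_left ?_ (inv_nonneg.2 (kM_pos hn p).le)
  refine circleAverage_mono (circ_int_real hv hbv (kern_cont n p z))
    (circ_int_real hw hbw (kern_cont n p z)) (fun u hu => ?_)
  exact mul_le_mul_of_nonneg_left (h u (by simpa using hu)) (by positivity)

lemma cf_nonneg {n : ℕ} (hn : 1 ≤ n) (p : ℕ) {v : ℂ → ℝ} (h : ∀ u : ℂ, ‖u‖ = 1 → 0 ≤ v u)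
    (z : ℂ) : 0 ≤ cf n p v z := by
  unfold cf
  refine mul_nonneg (inv_nonneg.2 (kM_pos hn p).le) (circleAverage_nonneg_of_nonneg
    (fun u hu => ?_))
  exact mul_nonneg (by positivity) (h u (by simpa using hu))

lemma cf_le {n : ℕ} (hn : 1 ≤ n) (p : ℕ) {v : ℂ → ℝ} (hv : Measurable v)
    {V c : ℝ} (hbv : ∀ u : ℂ, ‖u‖ = 1 → |v u| ≤ V) (h : ∀ u : ℂ, ‖u‖ = 1 → v u ≤ c)
    {z : ℂ} (hz : ‖z‖ = 1) : cf n p v z ≤ c := by
  have h1 := cf_mono hn p hv measurable_const hbv (W := |c|) (fun _ _ => le_rfl) h z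
  rwa [cf_const hn p c hz] at h1

lemma le_cf {n : ℕ} (hn : 1 ≤ n) (p : ℕ) {v : ℂ → ℝ} (hv : Measurable v)
    {V c : ℝ} (hbv : ∀ u : ℂ, ‖u‖ = 1 → |v u| ≤ V) (h : ∀ u : ℂ, ‖u‖ = 1 → c ≤ v u)
    {z : ℂ} (hz : ‖z‖ = 1) : c ≤ cf n p v z := by
  have h1 := cf_mono hn p measurable_const hv (V := |c|) (fun _ _ => le_rfl) hbv h z
  rwa [cf_const hn p c hz] at h1

lemma chi_sub {n p : ℕ} {v w : ℂ → ℝ} (hv : Measurable v) (hw : Measurable w)
    {V W : ℝ} (hbv : ∀ u : ℂ, ‖u‖ = 1 → |v u| ≤ V) (hbw : ∀ u : ℂ, ‖u‖ = 1 → |w u| ≤ W) :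
    chi n p (fun u => v u - w u) = chi n p v - chi n p w := by
  unfold chi
  rw [← Finset.sum_sub_distrib]
  refine Finset.sum_congr rfl (fun k _ => ?_)
  have h3 : ContinuousOn (fun w : ℂ => (w ^ kd n p * (w⁻¹) ^ k)) (Metric.sphere 0 1) := by
    refine ((continuousOn_id.pow _).mul ((continuousOn_id.inv₀ (fun w hw => ?_)).pow _))
    exact circ_ne (by simpa using hw)
  have h4 : circleAverage (fun u => u ^ kd n p * (u⁻¹) ^ k * ((v u - w u : ℝ) : ℂ)) 0 1 =
      circleAverage (fun u => u ^ kd n p * (u⁻¹) ^ k * (v u : ℂ)) 0 1 -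
      circleAverage (fun u => u ^ kd n p * (u⁻¹) ^ k * (w u : ℂ)) 0 1 := by
    rw [← circleAverage_fun_sub (circ_int hv hbv h3) (circ_int hw hbw h3)]
    congr 1
    funext u
    push_cast; ring
  rw [h4]
  rw [← sub_mul, ← Polynomial.C_sub]
  congr 2
  ring

lemma chi_const {n : ℕ} (hn : 1 ≤ n) (p : ℕ) (c : ℝ) :
    chi n p (fun _ => c) = C (c : ℂ) * X ^ kd n p := by
  refine Polynomial.eq_of_infinite_eval_eq _ _ ?_
  refine Set.Infinite.mono (s := Metric.sphere (0:ℂ) 1) ?_ ?_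
  · intro z hz
    have hz1 : ‖z‖ = 1 := by simpa using hz
    change (chi n p (fun _ => c)).eval z = _
    rw [chi_circle measurable_const (V := |c|) (fun _ _ => le_rfl) hz1, cf_const hn p c hz1]
    simp only [Polynomial.eval_mul, Polynomial.eval_C, Polynomial.eval_pow, Polynomial.eval_X]
    ring
  · have h1 : Set.Infinite (Set.Icc (-1:ℝ) 1) := Set.Icc_infinite (by norm_num)
    have h2 : Set.InjOn (fun x : ℝ => (x : ℂ) + (√(1 - x ^ 2) : ℂ) * I) (Set.Icc (-1:ℝ) 1) := by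
      intro x _ y _ hxy
      have := congrArg Complex.re hxy
      simpa using this
    refine (h1.image h2).mono ?_
    rintro _ ⟨x, hx, rfl⟩
    rw [mem_sphere_zero_iff_norm]
    have h3 : 0 ≤ 1 - x ^ 2 := by nlinarith [hx.1, hx.2]
    have h4 : ‖(x : ℂ) + (√(1 - x ^ 2) : ℂ) * I‖ ^ 2 = 1 := by
      rw [← Complex.normSq_eq_norm_sq, Complex.normSq_add_mul_I, Real.sq_sqrt h3]
      ring
    have h5 := norm_nonneg ((x : ℂ) + (√(1 - x ^ 2) : ℂ) * I)
    nlinarith

/-- global bound in the disc -/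
lemma chi_disc {n : ℕ} (hn : 1 ≤ n) (p : ℕ) {v : ℂ → ℝ} (hv : Measurable v)
    {V : ℝ} (hbv : ∀ u : ℂ, ‖u‖ = 1 → |v u| ≤ V) {z : ℂ} (hz : ‖z‖ = 1) :
    ‖(chi n p v).eval z‖ ≤ V := by
  rw [chi_circle hv hbv hz, norm_mul, norm_pow, hz, one_pow, one_mul, Complex.norm_real,
    Real.norm_eq_abs, abs_le]
  exact ⟨le_cf hn p hv hbv (fun u hu => (abs_le.1 (hbv u hu)).1) hz,
    cf_le hn p hv hbv (fun u hu => (abs_le.1 (hbv u hu)).2) hz⟩

lemma gS_far {n : ℕ} {u : ℂ} {δ : ℝ} (hδ : 0 < δ) (hu : δ ≤ ‖u - 1‖) (hn : ‖u‖ ^ n ≤ 3) :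
    ‖(gS n).eval u‖ ≤ 4 / δ := by
  have h1 : (gS n).eval u * (u - 1) = u ^ n - 1 := by
    rw [gS_eval]; exact geom_sum_mul u n
  have h2 : ‖(gS n).eval u‖ * ‖u - 1‖ ≤ 4 := by
    rw [← norm_mul, h1]
    refine (norm_sub_le _ _).trans ?_
    rw [norm_pow, norm_one]; linarith
  rw [le_div_iff₀ hδ]
  exact (mul_le_mul_of_nonneg_left hu (norm_nonneg _)).trans h2

/-- smallness away from the support -/
theorem chi_tail {n : ℕ} (hn : 1 ≤ n) (p : ℕ) {v : ℂ → ℝ} (hv : Measurable v)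
    {V : ℝ} (hbv : ∀ u : ℂ, ‖u‖ = 1 → |v u| ≤ V) {z : ℂ} (hz : ‖z‖ ≤ 1 + 1 / n) {δ : ℝ}
    (hδ : 0 < δ) (h0 : ∀ w : ℂ, ‖w‖ = 1 → ‖w - z‖ < δ → v w = 0) :
    ‖(chi n p v).eval z‖ ≤ 2 * π * n * (8 / (n * δ)) ^ (2 * p) * V := by
  have hn0 : (0 : ℝ) < n := by exact_mod_cast hn
  have hpi := Real.pi_pos
  have hV : 0 ≤ V := (abs_nonneg _).trans (hbv 1 (by simp))
  rw [chi_eval hv hbv z, norm_mul, norm_inv, Complex.norm_real,
    Real.norm_of_nonneg (kM_pos hn p).le]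
  have h1 : ‖circleAverage (fun w => w ^ kd n p * (kP n p).eval (z * w⁻¹) * (v w : ℂ)) 0 1‖ ≤
      (4 / δ) ^ (2 * p) * V := by
    refine avg_norm_le (fun w hw => ?_)
    rw [norm_mul, norm_mul, norm_pow, hw, one_pow, one_mul, Complex.norm_real, Real.norm_eq_abs]
    by_cases hd : ‖w - z‖ < δ
    · rw [h0 w hw hd, abs_zero, mul_zero]; positivity
    · have hw0 := circ_ne hw
      have h2 : δ ≤ ‖z * w⁻¹ - 1‖ := by
        have h3 : z * w⁻¹ - 1 = (z - w) * w⁻¹ := by field_simp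
        rw [h3, norm_mul, norm_inv, hw, inv_one, mul_one, norm_sub_rev]
        exact not_lt.1 hd
      have h4 : ‖z * w⁻¹‖ ^ n ≤ 3 := by
        rw [norm_mul, norm_inv, hw, inv_one, mul_one]
        calc ‖z‖ ^ n ≤ (1 + 1 / (n : ℝ)) ^ n := pow_le_pow_left₀ (norm_nonneg _) hz n
          _ ≤ (Real.exp (1 / n)) ^ n := pow_le_pow_left₀ (by positivity)
              (by linarith [Real.add_one_le_exp (1 / (n:ℝ))]) n
          _ = Real.exp 1 := by
              rw [← Real.exp_nat_mul]; congr 1; field_simp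
          _ ≤ 3 := Real.exp_one_lt_three.le
      have h5 := gS_far hδ h2 h4
      unfold kP
      rw [Polynomial.eval_pow, norm_pow]
      exact mul_le_mul (pow_le_pow_left₀ (norm_nonneg _) h5 _) (hbv w hw) (abs_nonneg _)
        (by positivity)
  have h6 : (kM n p)⁻¹ ≤ (2 * π * n) * ((n : ℝ) / 2)⁻¹ ^ (2 * p) := by
    have h7 := kM_lower hn p
    have h8 : 0 < ((n : ℝ) / 2) ^ (2 * p) / (2 * π * n) := by positivity
    have h9 := inv_anti₀ h8 h7
    rw [inv_div] at h9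
    rw [inv_pow]
    calc (kM n p)⁻¹ ≤ _ := h9
      _ = _ := by rw [div_eq_mul_inv]
  calc (kM n p)⁻¹ * ‖circleAverage (fun w => w ^ kd n p * (kP n p).eval (z * w⁻¹) * (v w : ℂ))
        0 1‖ ≤ ((2 * π * n) * ((n : ℝ) / 2)⁻¹ ^ (2 * p)) * ((4 / δ) ^ (2 * p) * V) :=
        mul_le_mul h6 h1 (norm_nonneg _) (by positivity)
    _ = 2 * π * n * (((n : ℝ) / 2)⁻¹ * (4 / δ)) ^ (2 * p) * V := by rw [mul_pow]; ring
    _ = 2 * π * n * (8 / (n * δ)) ^ (2 * p) * V := by
        congr 3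
        field_simp
        norm_num

/-- the cut-off is close to a constant where the function is constant -/
theorem chi_near {n : ℕ} (hn : 1 ≤ n) (p : ℕ) {v : ℂ → ℝ} (hv : Measurable v)
    {V c : ℝ} (hbv : ∀ u : ℂ, ‖u‖ = 1 → |v u - c| ≤ V) {z : ℂ} (hz : ‖z‖ ≤ 1 + 1 / n) {δ : ℝ}
    (hδ : 0 < δ) (h0 : ∀ w : ℂ, ‖w‖ = 1 → ‖w - z‖ < δ → v w = c) :
    ‖(chi n p v).eval z - c * z ^ kd n p‖ ≤ 2 * π * n * (8 / (n * δ)) ^ (2 * p) * V := by
  have hbv' : ∀ u : ℂ, ‖u‖ = 1 → |v u| ≤ V + |c| := by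
    intro u hu
    have := hbv u hu
    have h1 : v u = (v u - c) + c := by ring
    rw [h1]
    exact (abs_add_le _ _).trans (by linarith)
  have h1 := chi_sub (n := n) (p := p) hv measurable_const hbv' (w := fun _ => c) (W := |c|)
    (fun _ _ => le_rfl)
  have h2 := chi_tail hn p (hv.sub_const c) hbv hz hδ
    (fun w hw hd => by rw [h0 w hw hd, sub_self])
  have h3 : (chi n p (fun u => v u - c)).eval z = (chi n p v).eval z - c * z ^ kd n p := by
    rw [h1, chi_const hn p c]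
    simp
  rwa [h3] at h2

/-- localised mean value identity: the mean of the cut-off times the real part of an analytic
function divisible by a high power of `z` vanishes -/
theorem mean_cf_re {n p : ℕ} {v : ℂ → ℝ} (hv : Measurable v) {V : ℝ}
    (hb : ∀ w : ℂ, ‖w‖ = 1 → |v w| ≤ V) {g h : ℂ → ℂ} {m : ℕ} (hm : kd n p < m)
    (hh : DiffContOnCl ℂ h (Metric.ball 0 1)) (hg : ∀ z : ℂ, ‖z‖ = 1 → g z = z ^ m * h z) :
    circleAverage (fun z => cf n p v z * (g z).re) 0 1 = 0 := by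
  have h1 : ∀ z ∈ Metric.sphere (0:ℂ) |1|, cf n p v z * (g z).re =
      Complex.reCLM (z ^ (m - kd n p) * ((chi n p v).eval z * h z)) := by
    intro z hz
    have hz1 : ‖z‖ = 1 := by simpa using hz
    have hz0 := circ_ne hz1
    rw [Complex.reCLM_apply, chi_circle hv hb hz1, hg z hz1]
    have h2 : z ^ m = z ^ (m - kd n p) * z ^ kd n p := by rw [← pow_add]; congr 1; omega
    have h3 : z ^ (m - kd n p) * (z ^ kd n p * (cf n p v z : ℂ) * h z) =
        ((cf n p v z : ℝ) : ℂ) * (z ^ m * h z) := by rw [h2]; ring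
    rw [h3, Complex.re_ofReal_mul]
  have hcl : closure (Metric.ball (0 : ℂ) 1) = Metric.closedBall 0 1 := closure_ball 0 one_ne_zero
  have hd : DiffContOnCl ℂ (fun z => z ^ (m - kd n p) * ((chi n p v).eval z * h z))
      (Metric.ball 0 |1|) := by
    rw [abs_one]
    have e1 : DiffContOnCl ℂ (fun z : ℂ => z ^ (m - kd n p)) (Metric.ball 0 1) :=
      (differentiable_id.pow _).diffContOnCl
    have e2 : DiffContOnCl ℂ (fun z : ℂ => (chi n p v).eval z) (Metric.ball 0 1) :=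
      (chi n p v).differentiable.diffContOnCl
    exact e1.smul (e2.smul hh)
  have hc : ContinuousOn (fun z => z ^ (m - kd n p) * ((chi n p v).eval z * h z))
      (Metric.sphere 0 1) := by
    have := hd.continuousOn
    rw [abs_one, hcl] at this
    exact this.mono Metric.sphere_subset_closedBall
  rw [circleAverage_congr_sphere h1]
  have h4 := Complex.reCLM.circleAverage_comp_comm
    (f := fun z => z ^ (m - kd n p) * ((chi n p v).eval z * h z)) (c := 0) (R := 1)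
    (hc.circleIntegrable zero_le_one)
  have h5 := hd.circleAverage
  rw [h5] at h4
  have h6 : (Complex.reCLM ∘ fun z => z ^ (m - kd n p) * ((chi n p v).eval z * h z)) =
      fun z => Complex.reCLM (z ^ (m - kd n p) * ((chi n p v).eval z * h z)) := rfl
  rw [h6] at h4
  rw [h4]
  have h7 : (0:ℂ) ^ (m - kd n p) = 0 := zero_pow (by omega)
  rw [h7, zero_mul]
  simp

/-- growth outside the disc -/
theorem chi_growth {n : ℕ} (hn : 1 ≤ n) (p : ℕ) {v : ℂ → ℝ} (hv : Measurable v)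
    {V : ℝ} (hbv : ∀ u : ℂ, ‖u‖ = 1 → |v u| ≤ V) {z : ℂ} (hz : 1 ≤ ‖z‖) :
    ‖(chi n p v).eval z‖ ≤ V * ‖z‖ ^ (2 * kd n p) :=
  Pool.Agent.Helper58.LD.poly_growth (chi_natDegree n p v)
    (fun _ hw => chi_disc hn p hv hbv hw) hz

end Pool.Agent.Helper29.QF
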