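import Pool.Agent.Helper29.QF.Cut

/-! Tail estimates for the cut-offs without the prefactor `n` (Parseval). -/

namespace Pool.Agent.Helper29.QF

open Complex Polynomial MeasureTheory Real Set

/-- norm of an average -/
lemma avg_norm_le_avg {g : ℂ → ℂ} {h : ℂ → ℝ} (hi : CircleIntegrable h 0 1)
    (hb : ∀ w : ℂ, ‖w‖ = 1 → ‖g w‖ ≤ h w) : ‖circleAverage g 0 1‖ ≤ circleAverage h 0 1 := by
  have hpi := Real.pi_pos
  rw [circleAverage_def, circleAverage_def, norm_smul, norm_inv,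
    Real.norm_of_nonneg (by positivity), smul_eq_mul]
  refine mul_le_mul_of_nonneg_left ?_ (by positivity)
  refine intervalIntegral.norm_integral_le_of_norm_le (by positivity) ?_ hi
  exact Filter.Eventually.of_forall (fun t _ => hb _ (by simp))

lemma mean_sq (n : ℕ) (z : ℂ) :
    circleAverage (fun w => ‖(gS n).eval (z * w⁻¹)‖ ^ 2) 0 1 =
      ∑ j ∈ Finset.range n, (‖z‖ ^ j) ^ 2 := by
  have h1 := circleAverage_zero_one_congr_inv (f := fun w => ‖(gS n).eval (z * w)‖ ^ 2)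
  set q : ℂ[X] := ∑ j ∈ Finset.range n, C (z ^ j) * X ^ j with hq
  have h3 : ∀ w : ℂ, (gS n).eval (z * w) = q.eval w := by
    intro w
    rw [gS_eval, hq, Polynomial.eval_finsetSum]
    refine Finset.sum_congr rfl (fun j _ => ?_)
    simp [mul_pow]
  have hc : ∀ i : ℕ, q.coeff i = if i < n then z ^ i else 0 := by
    intro i
    rw [hq, Polynomial.finsetSum_coeff]
    simp only [Polynomial.coeff_C_mul, Polynomial.coeff_X_pow, mul_ite, mul_one, mul_zero]
    rw [Finset.sum_ite_eq]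
    simp [Finset.mem_range]
  have h4 := q.sum_sq_norm_coeff_eq_circleAverage
  have h5 : ∑ i ∈ q.support, ‖q.coeff i‖ ^ 2 = ∑ j ∈ Finset.range n, (‖z‖ ^ j) ^ 2 := by
    have h6 : q.support ⊆ Finset.range n := by
      intro i hi
      rw [Polynomial.mem_support_iff, hc i] at hi
      by_contra hni
      rw [Finset.mem_range] at hni
      rw [if_neg hni] at hi
      exact hi rfl
    rw [Finset.sum_subset h6]
    · refine Finset.sum_congr rfl (fun j hj => ?_)
      rw [hc j, if_pos (Finset.mem_range.1 hj), norm_pow]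
    · intro i _ hi
      rw [Polynomial.notMem_support_iff.1 hi, norm_zero]
      norm_num
  rw [← h5, h4, h1]
  congr 1
  funext w
  rw [h3]

lemma mean_sq_le {n : ℕ} {z : ℂ} (hn : 1 ≤ n) (hz : ‖z‖ ≤ 1 + 1 / n) :
    circleAverage (fun w => ‖(gS n).eval (z * w⁻¹)‖ ^ 2) 0 1 ≤ 9 * n := by
  have hn0 : (0 : ℝ) < n := by exact_mod_cast hn
  rw [mean_sq]
  have h1 : ∀ j ∈ Finset.range n, (‖z‖ ^ j) ^ 2 ≤ 9 := by
    intro j hj
    have hj := (Finset.mem_range.1 hj).le
    have h2 : ‖z‖ ^ j ≤ 3 := by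
      calc ‖z‖ ^ j ≤ (1 + 1 / (n : ℝ)) ^ j := pow_le_pow_left₀ (norm_nonneg _) hz j
        _ ≤ (1 + 1 / (n : ℝ)) ^ n := pow_le_pow_right₀ (by
            have : 0 ≤ 1 / (n : ℝ) := by positivity
            linarith) hj
        _ ≤ (Real.exp (1 / n)) ^ n := pow_le_pow_left₀ (by positivity)
            (by linarith [Real.add_one_le_exp (1 / (n:ℝ))]) n
        _ = Real.exp 1 := by
            rw [← Real.exp_nat_mul]; congr 1; field_simp
        _ ≤ 3 := Real.exp_one_lt_three.le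
    have h3 : 0 ≤ ‖z‖ ^ j := by positivity
    nlinarith
  calc ∑ j ∈ Finset.range n, (‖z‖ ^ j) ^ 2 ≤ ∑ _j ∈ Finset.range n, (9 : ℝ) :=
        Finset.sum_le_sum h1
    _ = 9 * n := by simp; ring

/-- smallness away from the support, no prefactor `n` -/
theorem chi_tail2 {n : ℕ} (hn : 1 ≤ n) {p : ℕ} (hp : 1 ≤ p) {v : ℂ → ℝ} (hv : Measurable v)
    {V : ℝ} (hbv : ∀ u : ℂ, ‖u‖ = 1 → |v u| ≤ V) {z : ℂ} (hz : ‖z‖ ≤ 1 + 1 / n) {δ : ℝ}
    (hδ : 0 < δ) (h0 : ∀ w : ℂ, ‖w‖ = 1 → ‖w - z‖ < δ → v w = 0) :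
    ‖(chi n p v).eval z‖ ≤ 72 * π * (8 / (n * δ)) ^ (2 * p - 2) * V := by
  have hn0 : (0 : ℝ) < n := by exact_mod_cast hn
  have hpi := Real.pi_pos
  have hV : 0 ≤ V := (abs_nonneg _).trans (hbv 1 (by simp))
  rw [chi_eval hv hbv z, norm_mul, norm_inv, Complex.norm_real,
    Real.norm_of_nonneg (kM_pos hn p).le]
  have hcont : ContinuousOn (fun w : ℂ => ‖(gS n).eval (z * w⁻¹)‖ ^ 2) (Metric.sphere 0 1) := by
    have := kern_cont n 1 z
    simpa using this
  have h1 : ‖circleAverage (fun w => w ^ kd n p * (kP n p).eval (z * w⁻¹) * (v w : ℂ)) 0 1‖ ≤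
      circleAverage (fun w => ((4 / δ) ^ (2 * p - 2) * V) • ‖(gS n).eval (z * w⁻¹)‖ ^ 2) 0 1 := by
    have hcs : ContinuousOn (fun w : ℂ => ((4 / δ) ^ (2 * p - 2) * V) •
        ‖(gS n).eval (z * w⁻¹)‖ ^ 2) (Metric.sphere 0 1) := by
      simp only [smul_eq_mul]
      exact continuousOn_const.mul hcont
    refine avg_norm_le_avg (hcs.circleIntegrable zero_le_one) (fun w hw => ?_)
    rw [norm_mul, norm_mul, norm_pow, hw, one_pow, one_mul, Complex.norm_real, Real.norm_eq_abs,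
      smul_eq_mul]
    by_cases hd : ‖w - z‖ < δ
    · rw [h0 w hw hd, abs_zero, mul_zero]; positivity
    · have hw0 := circ_ne hw
      have h2 : δ ≤ ‖z * w⁻¹ - 1‖ := by
        have h3 : z * w⁻¹ - 1 = (z - w) * w⁻¹ := by field_simp
        rw [h3, norm_mul, norm_inv, hw, inv_one, mul_one, norm_sub_rev]
        exact not_lt.1 hd
      have h4 : ‖z * w⁻¹‖ ^ n ≤ 3 := by
        rw [norm_mul, norm_inv, hw, inv_one, mul_one]
        calc ‖z‖ ^ n ≤ (1 + 1 / (n : ℝ)) ^ n := pow_le_pow_left₀ (norm_nonneg _) hz n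
          _ ≤ (Real.exp (1 / n)) ^ n := pow_le_pow_left₀ (by positivity)
              (by linarith [Real.add_one_le_exp (1 / (n:ℝ))]) n
          _ = Real.exp 1 := by
              rw [← Real.exp_nat_mul]; congr 1; field_simp
          _ ≤ 3 := Real.exp_one_lt_three.le
      have h5 := gS_far hδ h2 h4
      unfold kP
      rw [Polynomial.eval_pow, norm_pow]
      have h6 : 2 * p = (2 * p - 2) + 2 := by omega
      rw [h6, pow_add]
      have h7 : 2 * p - 2 + 2 - 2 = 2 * p - 2 := by omega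
      rw [h7]
      have h8 := pow_le_pow_left₀ (norm_nonneg _) h5 (2 * p - 2)
      have h9 := hbv w hw
      calc ‖(gS n).eval (z * w⁻¹)‖ ^ (2 * p - 2) * ‖(gS n).eval (z * w⁻¹)‖ ^ 2 * |v w|
          = (‖(gS n).eval (z * w⁻¹)‖ ^ (2 * p - 2) * |v w|) * ‖(gS n).eval (z * w⁻¹)‖ ^ 2 := by
            ring
        _ ≤ ((4 / δ) ^ (2 * p - 2) * V) * ‖(gS n).eval (z * w⁻¹)‖ ^ 2 :=
            mul_le_mul_of_nonneg_right (mul_le_mul h8 h9 (abs_nonneg _) (by positivity))
              (by positivity)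
  have hm : circleAverage (fun w => ((4 / δ) ^ (2 * p - 2) * V) • ‖(gS n).eval (z * w⁻¹)‖ ^ 2) 0 1
      ≤ ((4 / δ) ^ (2 * p - 2) * V) * (9 * n) := by
    rw [circleAverage_fun_smul, smul_eq_mul]
    exact mul_le_mul_of_nonneg_left (mean_sq_le hn hz) (by positivity)
  have h6 : (kM n p)⁻¹ ≤ (2 * π * n) * ((n : ℝ) / 2)⁻¹ ^ (2 * p) := by
    have h7 := kM_lower hn p
    have h8 : 0 < ((n : ℝ) / 2) ^ (2 * p) / (2 * π * n) := by positivity
    have h9 := inv_anti₀ h8 h7
    rw [inv_div] at h9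
    rw [inv_pow]
    calc (kM n p)⁻¹ ≤ _ := h9
      _ = _ := by rw [div_eq_mul_inv]
  calc (kM n p)⁻¹ * ‖circleAverage (fun w => w ^ kd n p * (kP n p).eval (z * w⁻¹) * (v w : ℂ))
        0 1‖ ≤ ((2 * π * n) * ((n : ℝ) / 2)⁻¹ ^ (2 * p)) *
          (((4 / δ) ^ (2 * p - 2) * V) * (9 * n)) :=
        mul_le_mul h6 (h1.trans hm) (norm_nonneg _) (by positivity)
    _ = 72 * π * (8 / (n * δ)) ^ (2 * p - 2) * V := by
        have h10 : 2 * p = (2 * p - 2) + 2 := by omega
        have h11 : ((n : ℝ) / 2)⁻¹ ^ (2 * p) = ((n : ℝ) / 2)⁻¹ ^ (2 * p - 2) * (4 / n ^ 2) := by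
          conv_lhs => rw [h10, pow_add]
          congr 1
          field_simp
          norm_num
        have h12 : (8 / ((n : ℝ) * δ)) ^ (2 * p - 2) =
            ((n : ℝ) / 2)⁻¹ ^ (2 * p - 2) * (4 / δ) ^ (2 * p - 2) := by
          rw [← mul_pow]; congr 1; field_simp; norm_num
        rw [h11, h12]
        field_simp
        ring

/-- the cut-off is close to a constant where the function is constant, no prefactor `n` -/
theorem chi_near2 {n : ℕ} (hn : 1 ≤ n) {p : ℕ} (hp : 1 ≤ p) {v : ℂ → ℝ} (hv : Measurable v)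
    {V c : ℝ} (hbv : ∀ u : ℂ, ‖u‖ = 1 → |v u - c| ≤ V) {z : ℂ} (hz : ‖z‖ ≤ 1 + 1 / n) {δ : ℝ}
    (hδ : 0 < δ) (h0 : ∀ w : ℂ, ‖w‖ = 1 → ‖w - z‖ < δ → v w = c) :
    ‖(chi n p v).eval z - c * z ^ kd n p‖ ≤ 72 * π * (8 / (n * δ)) ^ (2 * p - 2) * V := by
  have hbv' : ∀ u : ℂ, ‖u‖ = 1 → |v u| ≤ V + |c| := by
    intro u hu
    have := hbv u hu
    have h1 : v u = (v u - c) + c := by ring
    rw [h1]
    exact (abs_add_le _ _).trans (by linarith)
  have h1 := chi_sub (n := n) (p := p) hv measurable_const hbv' (w := fun _ => c) (W := |c|)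
    (fun _ _ => le_rfl)
  have h2 := chi_tail2 hn hp (hv.sub_const c) hbv hz hδ
    (fun w hw hd => by rw [h0 w hw hd, sub_self])
  have h3 : (chi n p (fun u => v u - c)).eval z = (chi n p v).eval z - c * z ^ kd n p := by
    rw [h1, chi_const hn p c]
    simp
  rwa [h3] at h2

/-- upper and lower bounds: the cut-off is between the local bounds up to the tail -/
theorem cf_local {n : ℕ} (hn : 1 ≤ n) {p : ℕ} (hp : 1 ≤ p) {v : ℂ → ℝ} (hv : Measurable v)
    {V c c' : ℝ} (hbv : ∀ u : ℂ, ‖u‖ = 1 → |v u| ≤ V) {z : ℂ} (hz : ‖z‖ = 1) {δ : ℝ}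
    (hδ : 0 < δ) (h0 : ∀ w : ℂ, ‖w‖ = 1 → ‖w - z‖ < δ → c ≤ v w ∧ v w ≤ c') :
    c - 72 * π * (8 / (n * δ)) ^ (2 * p - 2) * (V + |c|) ≤ cf n p v z ∧
      cf n p v z ≤ c' + 72 * π * (8 / (n * δ)) ^ (2 * p - 2) * (V + |c'|) := by
  have hz1 : ‖z‖ ≤ 1 + 1 / (n : ℝ) := by
    rw [hz]
    have : 0 ≤ 1 / (n : ℝ) := by positivity
    linarith
  have key : ∀ (v' : ℂ → ℝ), Measurable v' → ∀ (V' : ℝ), (∀ u : ℂ, ‖u‖ = 1 → |v' u| ≤ V') →
      (∀ w : ℂ, ‖w‖ = 1 → ‖w - z‖ < δ → v' w = 0) →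
      |cf n p v' z| ≤ 72 * π * (8 / (n * δ)) ^ (2 * p - 2) * V' := by
    intro v' hv' V' hb' h0'
    have h1 := chi_tail2 hn hp hv' hb' hz1 hδ h0'
    rwa [chi_circle hv' hb' hz, norm_mul, norm_pow, hz, one_pow, one_mul, Complex.norm_real,
      Real.norm_eq_abs] at h1
  have hsub : ∀ (v' w' : ℂ → ℝ), Measurable v' → Measurable w' → ∀ (V' W' : ℝ),
      (∀ u : ℂ, ‖u‖ = 1 → |v' u| ≤ V') → (∀ u : ℂ, ‖u‖ = 1 → |w' u| ≤ W') →
      cf n p (fun u => v' u - w' u) z = cf n p v' z - cf n p w' z := by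
    intro v' w' hv' hw' V' W' h1 h2
    unfold cf
    rw [← mul_sub, ← circleAverage_fun_sub (circ_int_real hv' h1 (kern_cont n p z))
      (circ_int_real hw' h2 (kern_cont n p z))]
    congr 2
    funext u
    ring
  constructor
  · -- v ≥ min (v, c) and min(v,c) = c near z
    have hm : Measurable (fun u => min (v u) c) := hv.min measurable_const
    have hb : ∀ u : ℂ, ‖u‖ = 1 → |min (v u) c| ≤ V + |c| := by
      intro u hu
      have h1 := hbv u hu
      have h2 := abs_nonneg c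
      have h3 := abs_nonneg (v u)
      rw [abs_le] at h1 ⊢
      have h4 := neg_abs_le c
      have h5 := le_abs_self c
      constructor
      · rcases min_choice (v u) c with h | h <;> rw [h] <;> linarith
      · exact (min_le_left _ _).trans (by linarith)
    have h1 : cf n p (fun u => min (v u) c) z ≤ cf n p v z :=
      cf_mono hn p hm hv hb hbv (fun u _ => min_le_left _ _) z
    have h2 := key (fun u => min (v u) c - c) (hm.sub_const c) (V + |c|) (fun u hu => by
      have h1 := hbv u hu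
      rw [abs_le] at h1 ⊢
      have h4 := neg_abs_le c
      have h5 := le_abs_self c
      constructor
      · rcases min_choice (v u) c with h | h <;> rw [h] <;> linarith [abs_nonneg c]
      · have := min_le_right (v u) c
        linarith [abs_nonneg c]) (fun w hw hd => by
        rw [min_eq_right (h0 w hw hd).1, sub_self])
    rw [hsub (fun u => min (v u) c) (fun _ => c) hm measurable_const (V + |c|) |c| hb
      (fun _ _ => le_rfl), cf_const hn p c hz, abs_le] at h2
    linarith [h2.1]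
  · have hm : Measurable (fun u => max (v u) c') := hv.max measurable_const
    have hb : ∀ u : ℂ, ‖u‖ = 1 → |max (v u) c'| ≤ V + |c'| := by
      intro u hu
      have h1 := hbv u hu
      rw [abs_le] at h1 ⊢
      have h4 := neg_abs_le c'
      have h5 := le_abs_self c'
      have h6 := abs_nonneg c'
      constructor
      · exact le_trans (by linarith) (le_max_left _ _)
      · rcases max_choice (v u) c' with h | h <;> rw [h] <;> linarith
    have h1 : cf n p v z ≤ cf n p (fun u => max (v u) c') z :=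
      cf_mono hn p hv hm hbv hb (fun u _ => le_max_left _ _) z
    have h2 := key (fun u => max (v u) c' - c') (hm.sub_const c') (V + |c'|) (fun u hu => by
      have h1 := hbv u hu
      rw [abs_le] at h1 ⊢
      have h4 := neg_abs_le c'
      have h5 := le_abs_self c'
      constructor
      · have := le_max_right (v u) c'
        linarith [abs_nonneg c']
      · rcases max_choice (v u) c' with h | h <;> rw [h] <;> linarith [abs_nonneg c'])
        (fun w hw hd => by rw [max_eq_right (h0 w hw hd).2, sub_self])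
    rw [hsub (fun u => max (v u) c') (fun _ => c') hm measurable_const (V + |c'|) |c'| hb
      (fun _ _ => le_rfl), cf_const hn p c' hz, abs_le] at h2
    linarith [h2.2]

end Pool.Agent.Helper29.QF
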