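import Pool.Agent.Helper81.QF.Szego

/-! Speeds of a pair of polynomials on the unit circle under a step of the Szego recursion. -/

namespace Pool.Agent.Helper29.QF

open Complex Polynomial
open Pool.Agent.Helper81.QF

/-- derivative of the reflected polynomial on the unit circle -/
lemma star_deriv_eval {m : ℕ} {p : ℂ[X]} (hp : p.natDegree ≤ m) {z : ℂ} (hz : ‖z‖ = 1) :
    (derivative (star m p)).eval z =
      z ^ m * z⁻¹ * ((m : ℂ) * (starRingEnd ℂ) (p.eval z) -
        z⁻¹ * (starRingEnd ℂ) ((derivative p).eval z)) := by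
  have hz0 : z ≠ 0 := by intro h; rw [h, norm_zero] at hz; norm_num at hz
  have h1 : (p.map (starRingEnd ℂ)).natDegree ≤ m := (Polynomial.natDegree_map_le).trans hp
  have key : ∀ w : ℂ, w ≠ 0 → (star m p).eval w = w ^ m * (p.map (starRingEnd ℂ)).eval w⁻¹ := by
    intro w hw
    let _ : Invertible (w⁻¹) := invertibleOfNonzero (inv_ne_zero hw)
    have h2 := Polynomial.eval₂_reflect_mul_pow (RingHom.id ℂ) (w⁻¹) m (p.map (starRingEnd ℂ)) h1
    have h3 : ⅟(w⁻¹) = w := by rw [invOf_eq_inv, inv_inv]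
    rw [h3, Polynomial.eval₂_id, Polynomial.eval₂_id] at h2
    have h5 : w⁻¹ ^ m * w ^ m = 1 := by
      rw [← mul_pow, inv_mul_cancel₀ hw, one_pow]
    unfold Pool.Agent.Helper81.QF.star
    rw [← h2]
    linear_combination -(Polynomial.eval w (reflect m (p.map (starRingEnd ℂ)))) * h5
  have hL : HasDerivAt (fun w : ℂ => (star m p).eval w) ((derivative (star m p)).eval z) z :=
    (star m p).hasDerivAt z
  have hinv : HasDerivAt (fun w : ℂ => w⁻¹) (-(z ^ 2)⁻¹) z := hasDerivAt_inv hz0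
  have hq : HasDerivAt (fun w : ℂ => (p.map (starRingEnd ℂ)).eval w⁻¹)
      ((derivative (p.map (starRingEnd ℂ))).eval z⁻¹ * (-(z ^ 2)⁻¹)) z :=
    ((p.map (starRingEnd ℂ)).hasDerivAt z⁻¹).comp z hinv
  have hpow : HasDerivAt (fun w : ℂ => w ^ m) ((m : ℂ) * z ^ (m - 1)) z := by
    simpa using hasDerivAt_pow m z
  have hR := hpow.mul hq
  have heq : (fun w : ℂ => (star m p).eval w) =ᶠ[nhds z]
      fun w : ℂ => w ^ m * (p.map (starRingEnd ℂ)).eval w⁻¹ := by
    filter_upwards [isOpen_ne.mem_nhds hz0] with w hw using key w hw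
  have hu := hL.unique (hR.congr_of_eventuallyEq heq)
  rw [hu]
  have e1 : (p.map (starRingEnd ℂ)).eval z⁻¹ = (starRingEnd ℂ) (p.eval z) := by
    rw [← conj_eq_inv hz, Polynomial.eval_map, Polynomial.eval₂_hom]
  have e2 : (derivative (p.map (starRingEnd ℂ))).eval z⁻¹ =
      (starRingEnd ℂ) ((derivative p).eval z) := by
    rw [Polynomial.derivative_map, ← conj_eq_inv hz, Polynomial.eval_map, Polynomial.eval₂_hom]
  rw [e1, e2]
  have e3 : (m : ℂ) * z ^ (m - 1) = (m : ℂ) * (z ^ m * z⁻¹) := by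
    rcases Nat.eq_zero_or_pos m with h0 | h0
    · subst h0; simp
    · obtain ⟨k, rfl⟩ : ∃ k, m = k + 1 := ⟨m - 1, by omega⟩
      rw [Nat.add_sub_cancel, pow_succ]; field_simp
  rw [e3]
  have e4 : (z ^ 2)⁻¹ = z⁻¹ * z⁻¹ := by rw [pow_two, mul_inv]
  rw [e4]; ring

/-- `b' d - b d'` -/
noncomputable def nN (b d : ℂ[X]) (z : ℂ) : ℂ :=
  (derivative b).eval z * d.eval z - b.eval z * (derivative d).eval z

/-- `conj d d' - conj b b'` -/
noncomputable def vV (b d : ℂ[X]) (z : ℂ) : ℂ :=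
  (starRingEnd ℂ) (d.eval z) * (derivative d).eval z -
    (starRingEnd ℂ) (b.eval z) * (derivative b).eval z

/-- `|d|^2 - |b|^2` -/
noncomputable def dl (b d : ℂ[X]) (z : ℂ) : ℝ := ‖d.eval z‖ ^ 2 - ‖b.eval z‖ ^ 2

lemma dl_eq (b d : ℂ[X]) (z : ℂ) : ((dl b d z : ℝ) : ℂ) =
    (starRingEnd ℂ) (d.eval z) * d.eval z - (starRingEnd ℂ) (b.eval z) * b.eval z := by
  unfold dl
  push_cast
  rw [← Complex.conj_mul', ← Complex.conj_mul']

/-- The `b, d` step as functions. -/
lemma nN_step {m : ℕ} {b d g : ℂ[X]} (hb : b.natDegree ≤ m) (hd : d.natDegree ≤ m)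
    {z : ℂ} (hz : ‖z‖ = 1) :
    nN (b + g * star m d) (d + g * star m b) z =
      nN b d z - (g.eval z * z ^ m) * vV b d z
        - (g.eval z * z ^ m) * z⁻¹ * z⁻¹ * (starRingEnd ℂ) (vV b d z)
        + (g.eval z * z ^ m) * (g.eval z * z ^ m) * z⁻¹ * z⁻¹ * (starRingEnd ℂ) (nN b d z)
        + ((derivative g).eval z * z ^ m + (m : ℂ) * (g.eval z * z ^ m) * z⁻¹) * (dl b d z : ℝ) := by
  rw [dl_eq]
  unfold nN vV
  simp only [derivative_add, derivative_mul, eval_add, eval_mul, star_eval hb hz, star_eval hd hz,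
    star_deriv_eval hb hz, star_deriv_eval hd hz, map_sub, map_mul, Complex.conj_conj]
  ring

lemma vV_step {m : ℕ} {b d g : ℂ[X]} (hb : b.natDegree ≤ m) (hd : d.natDegree ≤ m)
    {z : ℂ} (hz : ‖z‖ = 1) :
    vV (b + g * star m d) (d + g * star m b) z =
      vV b d z + ((starRingEnd ℂ) (g.eval z) * g.eval z) * z⁻¹ * z⁻¹ * (starRingEnd ℂ) (vV b d z)
        - (g.eval z * z ^ m) * z⁻¹ * z⁻¹ * (starRingEnd ℂ) (nN b d z)
        - (starRingEnd ℂ) (g.eval z) * (starRingEnd ℂ) (z ^ m) * nN b d z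
        - ((starRingEnd ℂ) (g.eval z) * (derivative g).eval z
            + (m : ℂ) * ((starRingEnd ℂ) (g.eval z) * g.eval z) * z⁻¹) * (dl b d z : ℝ) := by
  have hz0 : z ≠ 0 := by intro h; rw [h, norm_zero] at hz; norm_num at hz
  have hZ : (starRingEnd ℂ) (z ^ m) * z ^ m = 1 := by
    rw [Complex.conj_mul', norm_pow, hz]; simp
  have hZ2 : (starRingEnd ℂ) z ^ m * z ^ m = 1 := by rw [← map_pow]; exact hZ
  rw [dl_eq]
  unfold nN vV
  simp only [derivative_add, derivative_mul, eval_add, eval_mul, star_eval hb hz, star_eval hd hz,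
    star_deriv_eval hb hz, star_deriv_eval hd hz, map_sub, map_mul, map_add, Complex.conj_conj]
  set B := b.eval z
  set D := d.eval z
  set G := g.eval z
  set B' := (derivative b).eval z
  set D' := (derivative d).eval z
  set G' := (derivative g).eval z
  set w := (starRingEnd ℂ) (z ^ m)
  set cB := (starRingEnd ℂ) B
  set cD := (starRingEnd ℂ) D
  set cG := (starRingEnd ℂ) G
  set cB' := (starRingEnd ℂ) B'
  set cD' := (starRingEnd ℂ) D'
  linear_combination (cG * G' * (B * cB - D * cD) + cG * G * z⁻¹ * (m : ℂ) * (B * cB - D * cD)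
    + cG * G * z⁻¹ * z⁻¹ * (D * cD' - B * cB')) * hZ

/-- Speed estimate of one step. -/
theorem speed_step {m : ℕ} {b d g : ℂ[X]} (hb : b.natDegree ≤ m) (hd : d.natDegree ≤ m)
    {z : ℂ} (hz : ‖z‖ = 1) (hlt : ‖b.eval z‖ < ‖d.eval z‖) (hg1 : ‖g.eval z‖ < 1)
    {s : ℝ} (hs : ‖nN b d z‖ + ‖vV b d z‖ ≤ s * dl b d z) :
    ‖nN (b + g * star m d) (d + g * star m b) z‖ + ‖vV (b + g * star m d) (d + g * star m b) z‖ ≤
      (((1 + ‖g.eval z‖) * s + ‖(derivative g).eval z‖ + m * ‖g.eval z‖) / (1 - ‖g.eval z‖)) *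
        dl (b + g * star m d) (d + g * star m b) z := by
  have hinv : ‖z⁻¹‖ = 1 := by rw [norm_inv, hz, inv_one]
  have hzm : ‖z ^ m‖ = 1 := by rw [norm_pow, hz, one_pow]
  have hstep : dl (b + g * star m d) (d + g * star m b) z = (1 - ‖g.eval z‖ ^ 2) * dl b d z :=
    step_identity hb hd hz
  have hD : 0 < dl b d z := by
    unfold dl
    have := norm_nonneg (b.eval z)
    nlinarith
  have hgn := norm_nonneg (g.eval z)
  have h1 : ‖nN (b + g * star m d) (d + g * star m b) z‖ ≤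
      ‖nN b d z‖ + ‖g.eval z‖ * ‖vV b d z‖ + ‖g.eval z‖ * ‖vV b d z‖
        + ‖g.eval z‖ * ‖g.eval z‖ * ‖nN b d z‖
        + (‖(derivative g).eval z‖ + m * ‖g.eval z‖) * dl b d z := by
    rw [nN_step hb hd hz]
    refine (norm_add_le _ _).trans (add_le_add ((norm_add_le _ _).trans (add_le_add
      ((norm_sub_le _ _).trans (add_le_add ((norm_sub_le _ _).trans (add_le_add le_rfl ?_)) ?_))
        ?_)) ?_)
    · rw [norm_mul, norm_mul, hzm, mul_one]
    · rw [norm_mul, norm_mul, norm_mul, norm_mul, hzm, hinv, Complex.norm_conj, mul_one, mul_one,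
        mul_one]
    · rw [norm_mul, norm_mul, norm_mul, norm_mul, norm_mul, hzm, hinv, Complex.norm_conj, mul_one,
        mul_one, mul_one]
    · rw [norm_mul, Complex.norm_real, Real.norm_of_nonneg hD.le]
      refine mul_le_mul_of_nonneg_right ((norm_add_le _ _).trans (add_le_add ?_ ?_)) hD.le
      · rw [norm_mul, hzm, mul_one]
      · rw [norm_mul, norm_mul, norm_mul, hzm, hinv, mul_one, mul_one, Complex.norm_natCast]
  have h2 : ‖vV (b + g * star m d) (d + g * star m b) z‖ ≤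
      ‖vV b d z‖ + ‖g.eval z‖ * ‖g.eval z‖ * ‖vV b d z‖ + ‖g.eval z‖ * ‖nN b d z‖
        + ‖g.eval z‖ * ‖nN b d z‖
        + (‖g.eval z‖ * ‖(derivative g).eval z‖ + m * (‖g.eval z‖ * ‖g.eval z‖)) * dl b d z := by
    rw [vV_step hb hd hz]
    refine (norm_sub_le _ _).trans (add_le_add ((norm_sub_le _ _).trans (add_le_add
      ((norm_sub_le _ _).trans (add_le_add ((norm_add_le _ _).trans (add_le_add le_rfl ?_)) ?_))
        ?_)) ?_)
    · rw [norm_mul, norm_mul, norm_mul, norm_mul, hinv, Complex.norm_conj, Complex.norm_conj,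
        mul_one, mul_one]
    · rw [norm_mul, norm_mul, norm_mul, norm_mul, hzm, hinv, Complex.norm_conj, mul_one,
        mul_one, mul_one]
    · rw [norm_mul, norm_mul, Complex.norm_conj, Complex.norm_conj, hzm, mul_one]
    · rw [norm_mul, Complex.norm_real, Real.norm_of_nonneg hD.le]
      refine mul_le_mul_of_nonneg_right ((norm_add_le _ _).trans (add_le_add ?_ ?_)) hD.le
      · rw [norm_mul, Complex.norm_conj]
      · rw [norm_mul, norm_mul, norm_mul, hinv, Complex.norm_conj, mul_one, Complex.norm_natCast]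
  set x := ‖g.eval z‖
  set y := ‖(derivative g).eval z‖
  have h3 : ‖nN (b + g * star m d) (d + g * star m b) z‖
      + ‖vV (b + g * star m d) (d + g * star m b) z‖ ≤
      (1 + x) * ((1 + x) * (‖nN b d z‖ + ‖vV b d z‖) + (y + m * x) * dl b d z) := by
    refine (add_le_add h1 h2).trans (le_of_eq ?_)
    ring
  refine h3.trans ?_
  rw [hstep]
  have h4 : (((1 + x) * s + y + m * x) / (1 - x)) * ((1 - x ^ 2) * dl b d z) =
      (1 + x) * (((1 + x) * s + y + m * x) * dl b d z) := by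
    have : (1 - x) ≠ 0 := by
      have : 0 < 1 - x := by linarith
      exact this.ne'
    field_simp
    ring
  rw [h4]
  refine mul_le_mul_of_nonneg_left ?_ (by linarith)
  have h5 := mul_le_mul_of_nonneg_left hs (by linarith : (0:ℝ) ≤ 1 + x)
  nlinarith [h5]

/-- The pseudo-hyperbolic step on the circle: numerators. -/
lemma step_num {m : ℕ} {b d g : ℂ[X]} (hb : b.natDegree ≤ m) (hd : d.natDegree ≤ m)
    {z : ℂ} (hz : ‖z‖ = 1) :
    (b + g * star m d).eval z * d.eval z - b.eval z * (d + g * star m b).eval z =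
      g.eval z * z ^ m * (dl b d z : ℝ) := by
  rw [dl_eq]
  simp only [eval_add, eval_mul, star_eval hb hz, star_eval hd hz]
  ring

lemma step_den {m : ℕ} {b d g : ℂ[X]} (hb : b.natDegree ≤ m) (hd : d.natDegree ≤ m)
    {z : ℂ} (hz : ‖z‖ = 1) :
    (starRingEnd ℂ) (d.eval z) * (d + g * star m b).eval z -
      (starRingEnd ℂ) (b.eval z) * (b + g * star m d).eval z = (dl b d z : ℝ) := by
  rw [dl_eq]
  simp only [eval_add, eval_mul, star_eval hb hz, star_eval hd hz]
  ring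

/-- `|d'/d| ≤ s` and `|b'd - bd'| ≤ s (|d|^2 - |b|^2)`. -/
lemma norm_deriv_d {b d : ℂ[X]} {z : ℂ} (hlt : ‖b.eval z‖ < ‖d.eval z‖)
    {s : ℝ} (hs : ‖nN b d z‖ + ‖vV b d z‖ ≤ s * dl b d z) :
    ‖(derivative d).eval z‖ ≤ s * ‖d.eval z‖ := by
  have hD : 0 < dl b d z := by
    unfold dl
    have := norm_nonneg (b.eval z)
    nlinarith
  have hid : (dl b d z : ℂ) * (derivative d).eval z =
      d.eval z * vV b d z + (starRingEnd ℂ) (b.eval z) * nN b d z := by
    rw [dl_eq]; unfold nN vV; ring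
  have h1 : dl b d z * ‖(derivative d).eval z‖ ≤
      ‖d.eval z‖ * ‖vV b d z‖ + ‖b.eval z‖ * ‖nN b d z‖ := by
    have := congrArg norm hid
    rw [norm_mul, Complex.norm_real, Real.norm_of_nonneg hD.le] at this
    rw [this]
    refine (norm_add_le _ _).trans (le_of_eq ?_)
    rw [norm_mul, norm_mul, Complex.norm_conj]
  have h2 : ‖b.eval z‖ * ‖nN b d z‖ ≤ ‖d.eval z‖ * ‖nN b d z‖ :=
    mul_le_mul_of_nonneg_right hlt.le (norm_nonneg _)
  have h3 : dl b d z * ‖(derivative d).eval z‖ ≤ dl b d z * (s * ‖d.eval z‖) := by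
    have h4 := mul_le_mul_of_nonneg_left hs (norm_nonneg (d.eval z))
    nlinarith
  exact le_of_mul_le_mul_left h3 hD

end Pool.Agent.Helper29.QF
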