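import Pool.Agent.Helper29.QF.Speed
import Pool.Agent.Helper29.QF.Inner
import Pool.Agent.Helper84.Lam.Facts
import Pool.Agent.Helper81.QF.Defs

/-! Facts about a pair `(b, d)` of the Szego recursion on the closed disc. -/

namespace Pool.Agent.Helper29.QF

open Complex Metric Set Polynomial
open Pool.Agent.Helper81.QF
open Pool.Agent.Helper84.Lam (ps)

section
variable {m : ℕ} {b d : ℂ[X]}

lemma poly_an (p : ℂ[X]) (s : Set ℂ) : AnalyticOnNhd ℂ (fun z => p.eval z) s := fun z _ =>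
  (AnalyticOnNhd.eval_polynomial p) z trivial

lemma quot_an {p d : ℂ[X]} (h : ∀ z : ℂ, ‖z‖ ≤ 1 → d.eval z ≠ 0) :
    AnalyticOnNhd ℂ (fun z => p.eval z / d.eval z) (closedBall 0 1) := fun z hz =>
  (poly_an p univ z trivial).div (poly_an d univ z trivial) (h z (by simpa using hz))

lemma Bq_an (h : Pair m b d) : AnalyticOnNhd ℂ (Bq b d) (closedBall 0 1) := quot_an h.ne

lemma Bq_lt (h : Pair m b d) {z : ℂ} (hz : ‖z‖ ≤ 1) : ‖Bq b d z‖ < 1 := by
  unfold Bq
  rw [norm_div, div_lt_one (norm_pos_iff.2 (h.ne z hz))]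
  exact h.lt_disc hz

lemma Bq_zero (hb : b.eval 0 = 0) : Bq b d 0 = 0 := by
  unfold Bq; rw [hb, zero_div]

lemma one_sub_Bq (h : Pair m b d) {z : ℂ} (hz : ‖z‖ ≤ 1) :
    1 - ‖Bq b d z‖ ^ 2 = dl b d z / ‖d.eval z‖ ^ 2 := by
  have hd : ‖d.eval z‖ ≠ 0 := norm_ne_zero_iff.2 (h.ne z hz)
  unfold Bq dl
  rw [norm_div]
  field_simp

lemma dl_pos (h : Pair m b d) {z : ℂ} (hz : ‖z‖ ≤ 1) : 0 < dl b d z := by
  have h1 := h.lt_disc hz
  have := norm_nonneg (b.eval z)
  unfold dl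
  nlinarith

lemma dl_le (b d : ℂ[X]) (z : ℂ) : dl b d z ≤ ‖d.eval z‖ ^ 2 := by
  unfold dl
  have := sq_nonneg ‖b.eval z‖
  linarith

lemma hasDeriv_Bq (h : Pair m b d) {z : ℂ} (hz : ‖z‖ ≤ 1) :
    HasDerivAt (Bq b d) (nN b d z / d.eval z ^ 2) z := by
  have h1 := (b.hasDerivAt z).div (d.hasDerivAt z) (h.ne z hz)
  exact h1

lemma deriv_Bq (h : Pair m b d) {z : ℂ} (hz : ‖z‖ ≤ 1) :
    deriv (Bq b d) z = nN b d z / d.eval z ^ 2 := (hasDeriv_Bq h hz).deriv

/-- hyperbolic speed of `B` on the closed disc -/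
theorem speed_Bq (h : Pair m b d) {s : ℝ}
    (hs : ∀ z : ℂ, ‖z‖ = 1 → ‖nN b d z‖ ≤ s * dl b d z) {z : ℂ} (hz : ‖z‖ ≤ 1) :
    ‖deriv (Bq b d) z‖ ≤ s * (1 - ‖Bq b d z‖ ^ 2) := by
  refine speed_inner (Bq_an h) (fun w hw => Bq_lt h hw) (fun w hw => ?_) hz
  rw [deriv_Bq h hw.le, one_sub_Bq h hw.le, norm_div, norm_pow, ← mul_div_assoc]
  exact div_le_div_of_nonneg_right (hs w hw) (by positivity)

/-- logarithmic derivative of `d` on the closed disc -/
theorem speed_d (h : Pair m b d) {s : ℝ}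
    (hs : ∀ z : ℂ, ‖z‖ = 1 → ‖nN b d z‖ + ‖vV b d z‖ ≤ s * dl b d z) {z : ℂ} (hz : ‖z‖ ≤ 1) :
    ‖(derivative d).eval z‖ ≤ s * ‖d.eval z‖ := by
  have h1 := Pool.Agent.Helper58.LD.norm_le_of_circle (quot_an (p := derivative d) h.ne) (M := s)
    (fun w hw => by
      rw [norm_div, div_le_iff₀ (norm_pos_iff.2 (h.ne w hw.le))]
      exact norm_deriv_d (h.lt w hw) (hs w hw)) hz
  rwa [norm_div, div_le_iff₀ (norm_pos_iff.2 (h.ne z hz))] at h1

/-- the reflected `b` is dominated by `d` on the closed disc -/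
lemma star_b_le (h : Pair m b d) {z : ℂ} (hz : ‖z‖ ≤ 1) :
    ‖(star m b).eval z‖ ≤ ‖d.eval z‖ := by
  have h1 := Pool.Agent.Helper58.LD.norm_le_of_circle (quot_an (p := star m b) h.ne) (M := 1)
    (fun w hw => by
      rw [norm_div, div_le_iff₀ (norm_pos_iff.2 (h.ne w hw.le)), one_mul, star_eval h.db hw,
        norm_mul, norm_pow, hw, one_pow, one_mul, Complex.norm_conj]
      exact (h.lt w hw).le) hz
  rwa [norm_div, div_le_iff₀ (norm_pos_iff.2 (h.ne z hz)), one_mul] at h1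

/-- `|d d* - b b*| ≤ |d|^2 - |b|^2` on the closed disc -/
lemma star_form_le (h : Pair m b d) {z : ℂ} (hz : ‖z‖ ≤ 1) :
    ‖d.eval z * (star m d).eval z - b.eval z * (star m b).eval z‖ ≤ dl b d z := by
  set A : ℂ → ℂ := fun z => (d * star m d - b * star m b).eval z / (d ^ 2).eval z with hA
  have hne : ∀ z : ℂ, ‖z‖ ≤ 1 → (d ^ 2).eval z ≠ 0 := fun w hw => by
    rw [eval_pow]; exact pow_ne_zero _ (h.ne w hw)
  have hAn : AnalyticOnNhd ℂ A (closedBall 0 1) := quot_an hne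
  have h1 := inner_of_circle hAn (Bq_an h) (fun w hw => Bq_lt h hw) (M := 1) (l := 1)
    (fun w hw => by
      have hd : d.eval w ≠ 0 := h.ne w hw.le
      rw [hA, one_sub_Bq h hw.le, pow_one, one_mul]
      simp only [eval_sub, eval_mul, eval_pow]
      rw [norm_div, norm_pow]
      refine div_le_div_of_nonneg_right ?_ (by positivity)
      rw [star_eval h.dd hw, star_eval h.db hw]
      have e : d.eval w * (w ^ m * (starRingEnd ℂ) (d.eval w)) -
          b.eval w * (w ^ m * (starRingEnd ℂ) (b.eval w)) = w ^ m * (dl b d w : ℝ) := by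
        rw [dl_eq]; ring
      rw [e, norm_mul, norm_pow, hw, one_pow, one_mul, Complex.norm_real,
        Real.norm_of_nonneg (dl_pos h hw.le).le]) hz
  have hd : 0 < ‖d.eval z‖ := norm_pos_iff.2 (h.ne z hz)
  rw [hA, one_sub_Bq h hz, pow_one, one_mul] at h1
  simp only [eval_sub, eval_mul, eval_pow] at h1
  rw [norm_div, norm_pow] at h1
  have h2 : 0 < ‖d.eval z‖ ^ 2 := by positivity
  exact (div_le_div_iff_of_pos_right h2).1 h1

/-- size of `d₊ / d` -/
lemma step_d (h : Pair m b d) (g : ℂ[X]) {z : ℂ} (hz : ‖z‖ ≤ 1) :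
    ‖(d + g * star m b).eval z - d.eval z‖ ≤ ‖g.eval z‖ * ‖d.eval z‖ := by
  rw [eval_add, eval_mul, add_sub_cancel_left, norm_mul]
  exact mul_le_mul_of_nonneg_left (star_b_le h hz) (norm_nonneg _)

lemma step_d_lower (h : Pair m b d) (g : ℂ[X]) {z : ℂ} (hz : ‖z‖ ≤ 1) :
    (1 - ‖g.eval z‖) * ‖d.eval z‖ ≤ ‖(d + g * star m b).eval z‖ := by
  have h1 := step_d h g hz
  have h2 : ‖d.eval z‖ ≤ ‖(d + g * star m b).eval z‖ +
      ‖(d + g * star m b).eval z - d.eval z‖ := by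
    have := norm_sub_le ((d + g * star m b).eval z) ((d + g * star m b).eval z - d.eval z)
    rwa [sub_sub_cancel] at this
  linarith

lemma step_d_upper (h : Pair m b d) (g : ℂ[X]) {z : ℂ} (hz : ‖z‖ ≤ 1) :
    ‖(d + g * star m b).eval z‖ ≤ (1 + ‖g.eval z‖) * ‖d.eval z‖ := by
  have h1 := step_d h g hz
  have h2 : ‖(d + g * star m b).eval z‖ ≤ ‖d.eval z‖ +
      ‖(d + g * star m b).eval z - d.eval z‖ := by
    have := norm_add_le (d.eval z) ((d + g * star m b).eval z - d.eval z)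
    rwa [add_sub_cancel] at this
  linarith

lemma step_wronsk (m : ℕ) (b d g : ℂ[X]) (z : ℂ) :
    (b + g * star m d).eval z * d.eval z - b.eval z * (d + g * star m b).eval z =
      g.eval z * (d.eval z * (star m d).eval z - b.eval z * (star m b).eval z) := by
  simp only [eval_add, eval_mul]; ring

/-- the move of `B` in a step, on the closed disc -/
theorem step_B (h : Pair m b d) {g : ℂ[X]} {z : ℂ} (hz : ‖z‖ ≤ 1)
    (hg : ‖g.eval z‖ < 1) :
    ‖Bq (b + g * star m d) (d + g * star m b) z - Bq b d z‖ ≤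
      ‖g.eval z‖ / (1 - ‖g.eval z‖) * (1 - ‖Bq b d z‖ ^ 2) := by
  have hd : 0 < ‖d.eval z‖ := norm_pos_iff.2 (h.ne z hz)
  have hx : 0 < 1 - ‖g.eval z‖ := by linarith
  have hlow := step_d_lower h g hz
  have hd1 : 0 < ‖(d + g * star m b).eval z‖ := lt_of_lt_of_le (mul_pos hx hd) hlow
  have hdne : d.eval z ≠ 0 := norm_pos_iff.1 hd
  have hd1ne : (d + g * star m b).eval z ≠ 0 := norm_pos_iff.1 hd1
  have e : Bq (b + g * star m d) (d + g * star m b) z - Bq b d z =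
      g.eval z * (d.eval z * (star m d).eval z - b.eval z * (star m b).eval z) /
        ((d + g * star m b).eval z * d.eval z) := by
    rw [← step_wronsk]
    unfold Bq
    rw [div_sub_div _ _ hd1ne hdne]
    congr 1
    ring
  rw [e, norm_div, norm_mul, norm_mul, one_sub_Bq h hz]
  have h1 := star_form_le h hz
  have hdl := (dl_pos h hz).le
  rw [div_mul_div_comm, div_le_div_iff₀ (mul_pos hd1 hd) (mul_pos hx (by positivity))]
  have h2 : ‖g.eval z‖ * ‖d.eval z * (star m d).eval z - b.eval z * (star m b).eval z‖ ≤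
      ‖g.eval z‖ * dl b d z := mul_le_mul_of_nonneg_left h1 (norm_nonneg _)
  have h3 : (1 - ‖g.eval z‖) * ‖d.eval z‖ ^ 2 ≤ ‖(d + g * star m b).eval z‖ * ‖d.eval z‖ := by
    nlinarith
  exact mul_le_mul h2 h3 (by positivity) (mul_nonneg (norm_nonneg _) hdl)

/-- pseudo-hyperbolic step on the closed disc -/
theorem step_ps (h : Pair m b d) {g : ℂ[X]} {z : ℂ} (hz : ‖z‖ ≤ 1)
    (hg : ‖g.eval z‖ < 1 / 2) :
    ps (Bq b d z) (Bq (b + g * star m d) (d + g * star m b) z) ≤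
      ‖g.eval z‖ / (1 - 2 * ‖g.eval z‖) := by
  have hB := Bq_lt h hz
  set B := Bq b d z
  set B' := Bq (b + g * star m d) (d + g * star m b) z
  have h1 := step_B h hz (g := g) (by linarith)
  have hB0 := norm_nonneg B
  have hP : 0 < 1 - ‖B‖ ^ 2 := by nlinarith
  have hx0 := norm_nonneg (g.eval z)
  set x := ‖g.eval z‖
  have hx : 0 < 1 - x := by linarith
  have hden : (1 - 2 * x) / (1 - x) * (1 - ‖B‖ ^ 2) ≤ ‖1 - (starRingEnd ℂ) B * B'‖ := by
    have e : 1 - (starRingEnd ℂ) B * B' = ((1 - ‖B‖ ^ 2 : ℝ) : ℂ) - (starRingEnd ℂ) B * (B' - B) := by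
      push_cast
      rw [← Complex.conj_mul']; ring
    have h2 : ‖((1 - ‖B‖ ^ 2 : ℝ) : ℂ)‖ ≤ ‖1 - (starRingEnd ℂ) B * B'‖ +
        ‖(starRingEnd ℂ) B * (B' - B)‖ := by
      have h3 : ((1 - ‖B‖ ^ 2 : ℝ) : ℂ) = (1 - (starRingEnd ℂ) B * B') +
          (starRingEnd ℂ) B * (B' - B) := by rw [e]; ring
      conv_lhs => rw [h3]
      exact norm_add_le _ _
    rw [Complex.norm_real, Real.norm_of_nonneg hP.le, norm_mul, Complex.norm_conj] at h2
    have h4 : ‖B‖ * ‖B' - B‖ ≤ x / (1 - x) * (1 - ‖B‖ ^ 2) := by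
      have h5 := norm_nonneg (B' - B)
      nlinarith
    have h6 : (1 - 2 * x) / (1 - x) = 1 - x / (1 - x) := by field_simp; ring
    rw [h6]
    linarith
  have hq : 0 < (1 - 2 * x) / (1 - x) := div_pos (by linarith) hx
  have hd0 : 0 < ‖1 - (starRingEnd ℂ) B * B'‖ := lt_of_lt_of_le (mul_pos hq hP) hden
  unfold Pool.Agent.Helper84.Lam.ps
  rw [div_le_iff₀ hd0, norm_sub_rev]
  calc ‖B' - B‖ ≤ x / (1 - x) * (1 - ‖B‖ ^ 2) := h1
    _ = x / (1 - 2 * x) * ((1 - 2 * x) / (1 - x) * (1 - ‖B‖ ^ 2)) := by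
        have h2x : (1 - 2 * x) ≠ 0 := by
          have : 0 < 1 - 2 * x := by linarith
          exact this.ne'
        have h1x : (1 - x) ≠ 0 := hx.ne'
        rw [← mul_assoc, div_mul_div_cancel₀ h2x]
    _ ≤ x / (1 - 2 * x) * ‖1 - (starRingEnd ℂ) B * B'‖ :=
        mul_le_mul_of_nonneg_left hden (div_nonneg hx0 (by linarith))

/-- pseudo-hyperbolic step on the circle is exactly `|g|` -/
theorem step_ps_circle (h : Pair m b d) {g : ℂ[X]} {z : ℂ} (hz : ‖z‖ = 1)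
    (hg : ‖g.eval z‖ < 1) :
    ps (Bq b d z) (Bq (b + g * star m d) (d + g * star m b) z) = ‖g.eval z‖ := by
  have hd : 0 < ‖d.eval z‖ := norm_pos_iff.2 (h.ne z hz.le)
  have hx : 0 < 1 - ‖g.eval z‖ := by linarith
  have hd1 : 0 < ‖(d + g * star m b).eval z‖ :=
    lt_of_lt_of_le (mul_pos hx hd) (step_d_lower h g hz.le)
  have hdne : d.eval z ≠ 0 := norm_pos_iff.1 hd
  have hd1ne : (d + g * star m b).eval z ≠ 0 := norm_pos_iff.1 hd1
  have hdl := dl_pos h hz.le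
  have hcd : (starRingEnd ℂ) (d.eval z) ≠ 0 := (_root_.map_ne_zero _).2 hdne
  have e1 : ‖Bq b d z - Bq (b + g * star m d) (d + g * star m b) z‖ =
      ‖g.eval z‖ * dl b d z / (‖(d + g * star m b).eval z‖ * ‖d.eval z‖) := by
    have e : Bq (b + g * star m d) (d + g * star m b) z - Bq b d z =
        (g.eval z * z ^ m * (dl b d z : ℝ)) /
          ((d + g * star m b).eval z * d.eval z) := by
      rw [← step_num h.db h.dd hz]
      unfold Bq
      rw [div_sub_div _ _ hd1ne hdne]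
      congr 1
      ring
    rw [norm_sub_rev, e, norm_div, norm_mul, norm_mul, norm_mul, norm_pow, hz, one_pow, mul_one,
      Complex.norm_real, Real.norm_of_nonneg hdl.le]
  have e2 : ‖1 - (starRingEnd ℂ) (Bq b d z) * Bq (b + g * star m d) (d + g * star m b) z‖ =
      dl b d z / (‖(d + g * star m b).eval z‖ * ‖d.eval z‖) := by
    have e : 1 - (starRingEnd ℂ) (Bq b d z) * Bq (b + g * star m d) (d + g * star m b) z =
        ((dl b d z : ℝ) : ℂ) / ((starRingEnd ℂ) (d.eval z) * (d + g * star m b).eval z) := by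
      rw [← step_den h.db h.dd hz]
      unfold Bq
      rw [map_div₀]
      field_simp
    rw [e, norm_div, Complex.norm_real, Real.norm_of_nonneg hdl.le, norm_mul, Complex.norm_conj,
      mul_comm ‖d.eval z‖]
  unfold Pool.Agent.Helper84.Lam.ps
  rw [e1, e2]
  have := hdl.ne'
  field_simp

/-- `ps (B x) (B y) ≤ s |x - y|` on the closed disc -/
theorem ps_lip (h : Pair m b d) {s : ℝ} (hs0 : 0 ≤ s)
    (hs : ∀ z : ℂ, ‖z‖ = 1 → ‖nN b d z‖ ≤ s * dl b d z) {x y : ℂ} (hx : ‖x‖ ≤ 1) (hy : ‖y‖ ≤ 1) :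
    ps (Bq b d x) (Bq b d y) ≤ s * ‖x - y‖ := by
  have ha := Bq_lt h hx
  set a := Bq b d x with hadef
  have hne : ∀ z : ℂ, ‖z‖ ≤ 1 → 1 - (starRingEnd ℂ) a * Bq b d z ≠ 0 := fun z hz =>
    one_sub_pos ha (Bq_lt h hz)
  set φ : ℂ → ℂ := fun z => (Bq b d z - a) / (1 - (starRingEnd ℂ) a * Bq b d z) with hφ
  have hder : ∀ z ∈ closedBall (0 : ℂ) 1, HasDerivWithinAt φ
      (deriv (Bq b d) z * ((1 - ‖a‖ ^ 2 : ℝ) : ℂ) / (1 - (starRingEnd ℂ) a * Bq b d z) ^ 2)
      (closedBall 0 1) z := by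
    intro z hz
    have hz' : ‖z‖ ≤ 1 := by simpa using hz
    have h1 : HasDerivAt (Bq b d) (deriv (Bq b d) z) z := by
      rw [deriv_Bq h hz']; exact hasDeriv_Bq h hz'
    have h2 := (h1.sub_const a).div ((h1.const_mul ((starRingEnd ℂ) a)).const_sub 1) (hne z hz')
    refine (h2.congr_deriv ?_).hasDerivWithinAt
    congr 1
    push_cast
    rw [← Complex.conj_mul']
    ring
  have hbound : ∀ z ∈ closedBall (0 : ℂ) 1,
      ‖deriv (Bq b d) z * ((1 - ‖a‖ ^ 2 : ℝ) : ℂ) / (1 - (starRingEnd ℂ) a * Bq b d z) ^ 2‖ ≤ s := by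
    intro z hz
    have hz' : ‖z‖ ≤ 1 := by simpa using hz
    have h1 := speed_Bq h hs hz'
    have h2 := mob_le a (Bq b d z)
    have hpos : 0 < ‖1 - (starRingEnd ℂ) a * Bq b d z‖ := norm_pos_iff.2 (hne z hz')
    have ha0 := norm_nonneg a
    have hA : 0 < 1 - ‖a‖ ^ 2 := by nlinarith
    rw [norm_div, norm_mul, Complex.norm_real, Real.norm_of_nonneg hA.le, norm_pow,
      div_le_iff₀ (by positivity)]
    have h3 := mul_le_mul_of_nonneg_right h1 hA.le
    have h4 := mul_le_mul_of_nonneg_left h2 hs0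
    nlinarith
  have hmv := (convex_closedBall (0 : ℂ) 1).norm_image_sub_le_of_norm_hasDerivWithin_le hder hbound
    (by simpa using hx : x ∈ closedBall (0 : ℂ) 1) (by simpa using hy : y ∈ closedBall (0 : ℂ) 1)
  have hx0 : φ x = 0 := by rw [hφ]; simp only; rw [← hadef, sub_self, zero_div]
  rw [hx0, sub_zero] at hmv
  unfold Pool.Agent.Helper84.Lam.ps
  rw [norm_sub_rev x y]
  rw [norm_sub_rev, ← norm_div]
  exact hmv

end

end Pool.Agent.Helper29.QF
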