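import Pool.Agent.Helper29.QF.Inner

/-! The Szego step off the circle: `b' , d'` are the values at the reflected point. -/

namespace Pool.Agent.Helper29.QF

open Complex

section
variable {b d b' d' a : ℂ} {η : ℝ}

lemma ann_pos (h : ‖b‖ < ‖d‖) : 0 < ‖d‖ ^ 2 - ‖b‖ ^ 2 := by
  have := norm_nonneg b
  nlinarith

/-- hypothesis: the two points are close in the pseudo-hyperbolic metric and `d'/d` is close to 1 -/
structure Close (b d b' d' : ℂ) (η : ℝ) : Prop where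
  lt : ‖b‖ < ‖d‖
  lt' : ‖b'‖ < ‖d'‖
  hyp : ‖d * b' - b * d'‖ ≤ η * ‖(starRingEnd ℂ) d * d' - (starRingEnd ℂ) b * b'‖
  quo : ‖d' - d‖ ≤ η * ‖d‖

/-- main estimates for a close pair, all relative to `w = |d|^2 - |b|^2` -/
lemma Close.est (h : Close b d b' d' η) (h0 : 0 ≤ η) (h1 : η ≤ 1 / 10) :
    ‖d * b' - b * d'‖ ≤ 5 / 4 * η * (‖d‖ ^ 2 - ‖b‖ ^ 2) ∧
    ‖(starRingEnd ℂ) d * d' - (starRingEnd ℂ) b * b' - ((‖d‖ ^ 2 - ‖b‖ ^ 2 : ℝ) : ℂ)‖ ≤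
      5 / 2 * η * (‖d‖ ^ 2 - ‖b‖ ^ 2) ∧
    |(‖d'‖ ^ 2 - ‖b'‖ ^ 2) - (‖d‖ ^ 2 - ‖b‖ ^ 2)| ≤ 6 * η * (‖d‖ ^ 2 - ‖b‖ ^ 2) := by
  have hw := ann_pos h.lt
  set w := ‖d‖ ^ 2 - ‖b‖ ^ 2 with hwd
  set X := d * b' - b * d' with hX
  set S := (starRingEnd ℂ) d * d' - (starRingEnd ℂ) b * b' with hS
  have hd0 : 0 < ‖d‖ := lt_of_le_of_lt (norm_nonneg _) h.lt
  -- S = w + conj d (d' - d) - conj b (b' - b)
  have hw' : (w : ℂ) = (starRingEnd ℂ) d * d - (starRingEnd ℂ) b * b := by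
    rw [hwd]; push_cast; rw [← Complex.conj_mul', ← Complex.conj_mul']
  -- d S = w d' - conj b X   and so on
  have e1 : d * S = (w : ℂ) * d' - (starRingEnd ℂ) b * X := by rw [hw', hS, hX]; ring
  have e2 : d * (S - w) = (w : ℂ) * (d' - d) - (starRingEnd ℂ) b * X := by
    rw [mul_sub, e1]; ring
  have hXS : ‖X‖ ≤ η * ‖S‖ := h.hyp
  have n1 : ‖d‖ * ‖S‖ ≤ w * ((1 + η) * ‖d‖) + ‖d‖ * ‖X‖ := by
    rw [← norm_mul, e1]
    refine (norm_sub_le _ _).trans (add_le_add ?_ ?_)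
    · rw [norm_mul, Complex.norm_real, Real.norm_of_nonneg hw.le]
      refine mul_le_mul_of_nonneg_left ?_ hw.le
      have : d' = d + (d' - d) := by ring
      rw [this]
      refine (norm_add_le _ _).trans ?_
      have := h.quo
      linarith
    · rw [norm_mul, Complex.norm_conj]
      exact mul_le_mul_of_nonneg_right h.lt.le (norm_nonneg _)
  have n2 : ‖S‖ ≤ w * (1 + η) + ‖X‖ := by
    have : ‖d‖ * ‖S‖ ≤ ‖d‖ * (w * (1 + η) + ‖X‖) := by linarith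
    exact le_of_mul_le_mul_left this hd0
  have n3 : ‖S‖ * (1 - η) ≤ w * (1 + η) := by linarith
  have hS0 := norm_nonneg S
  have n4 : ‖S‖ ≤ 5 / 4 * w := by nlinarith
  have n5 : ‖X‖ ≤ 5 / 4 * η * w := by nlinarith
  have n6 : ‖S - w‖ ≤ 5 / 2 * η * w := by
    have h3 : ‖d‖ * ‖S - w‖ ≤ ‖d‖ * (w * η + ‖X‖) := by
      rw [← norm_mul, e2]
      refine (norm_sub_le _ _).trans ?_
      rw [norm_mul, norm_mul, Complex.norm_conj, Complex.norm_real, Real.norm_of_nonneg hw.le]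
      have := mul_le_mul_of_nonneg_left h.quo hw.le
      have := mul_le_mul_of_nonneg_right h.lt.le (norm_nonneg X)
      linarith
    have h4 : ‖S - w‖ ≤ w * η + ‖X‖ := le_of_mul_le_mul_left h3 hd0
    nlinarith
  refine ⟨n5, n6, ?_⟩
  -- w' in terms of S : |d|^2 w' = |S|^2 - |X|^2 ... identity (|d'|^2-|b'|^2)(|d|^2-|b|^2) = |S|^2 - |X|^2
  have id : (‖d'‖ ^ 2 - ‖b'‖ ^ 2) * w = ‖S‖ ^ 2 - ‖X‖ ^ 2 := by
    rw [hwd, hS, hX]
    simp only [← Complex.normSq_eq_norm_sq, Complex.normSq_apply]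
    simp only [Complex.sub_re, Complex.sub_im, Complex.mul_re, Complex.mul_im,
      Complex.conj_re, Complex.conj_im]
    ring
  set w' := ‖d'‖ ^ 2 - ‖b'‖ ^ 2
  have hSlow : w - 5 / 2 * η * w ≤ ‖S‖ := by
    have : ‖(w : ℂ)‖ ≤ ‖S‖ + ‖S - w‖ := by
      have h5 : (w : ℂ) = S - (S - w) := by ring
      conv_lhs => rw [h5]
      exact norm_sub_le _ _
    rw [Complex.norm_real, Real.norm_of_nonneg hw.le] at this
    linarith
  have hSup : ‖S‖ ≤ w + 5 / 2 * η * w := by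
    have : ‖S‖ ≤ ‖(w : ℂ)‖ + ‖S - w‖ := by
      have h5 : S = w + (S - w) := by ring
      conv_lhs => rw [h5]
      exact norm_add_le _ _
    rw [Complex.norm_real, Real.norm_of_nonneg hw.le] at this
    linarith
  have hX0 := norm_nonneg X
  have u1 : w' * w ≤ (1 + 5 / 2 * η) ^ 2 * w * w := by
    rw [id]
    have : ‖S‖ ^ 2 ≤ (w + 5 / 2 * η * w) ^ 2 := pow_le_pow_left₀ hS0 hSup 2
    nlinarith
  have u2 : ((1 - 5 / 2 * η) ^ 2 - (5 / 4 * η) ^ 2) * w * w ≤ w' * w := by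
    rw [id]
    have h6 : (w - 5 / 2 * η * w) ^ 2 ≤ ‖S‖ ^ 2 := by
      refine pow_le_pow_left₀ ?_ hSlow 2
      nlinarith
    have h7 : ‖X‖ ^ 2 ≤ (5 / 4 * η * w) ^ 2 := pow_le_pow_left₀ hX0 n5 2
    nlinarith
  have u3 : w' ≤ (1 + 5 / 2 * η) ^ 2 * w := le_of_mul_le_mul_right u1 hw
  have u4 : ((1 - 5 / 2 * η) ^ 2 - (5 / 4 * η) ^ 2) * w ≤ w' := le_of_mul_le_mul_right u2 hw
  have hη2 : η ^ 2 ≤ η / 10 := by nlinarith
  rw [abs_le]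
  constructor
  · nlinarith [mul_nonneg h0 hw.le, mul_nonneg (sq_nonneg η) hw.le]
  · nlinarith [mul_nonneg h0 hw.le, mul_le_mul_of_nonneg_right hη2 hw.le]

/-- one step off the circle: the form is multiplied by about `1 - |a|^2` -/
lemma Close.form (h : Close b d b' d' η) (h0 : 0 ≤ η) (h1 : η ≤ 1 / 10) (ha : ‖a‖ ≤ 1) :
    |(‖d + a * (starRingEnd ℂ) b'‖ ^ 2 - ‖b + a * (starRingEnd ℂ) d'‖ ^ 2) -
      (1 - ‖a‖ ^ 2) * (‖d‖ ^ 2 - ‖b‖ ^ 2)| ≤ 9 * η * (‖d‖ ^ 2 - ‖b‖ ^ 2) := by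
  obtain ⟨hX, _, hw'⟩ := h.est h0 h1
  have hw := ann_pos h.lt
  have id : ‖d + a * (starRingEnd ℂ) b'‖ ^ 2 - ‖b + a * (starRingEnd ℂ) d'‖ ^ 2 =
      (‖d‖ ^ 2 - ‖b‖ ^ 2) - ‖a‖ ^ 2 * (‖d'‖ ^ 2 - ‖b'‖ ^ 2) +
        2 * (a * (starRingEnd ℂ) (d * b' - b * d')).re := by
    simp only [← Complex.normSq_eq_norm_sq, Complex.normSq_apply]
    simp only [Complex.sub_re, Complex.sub_im, Complex.add_re, Complex.add_im, Complex.mul_re,
      Complex.mul_im, Complex.conj_re, Complex.conj_im]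
    ring
  have h2 : |(a * (starRingEnd ℂ) (d * b' - b * d')).re| ≤ 5 / 4 * η * (‖d‖ ^ 2 - ‖b‖ ^ 2) := by
    refine (Complex.abs_re_le_norm _).trans ?_
    rw [norm_mul, Complex.norm_conj]
    have := norm_nonneg (d * b' - b * d')
    have := norm_nonneg a
    nlinarith
  set w := ‖d‖ ^ 2 - ‖b‖ ^ 2
  set w' := ‖d'‖ ^ 2 - ‖b'‖ ^ 2
  have ha2 : ‖a‖ ^ 2 ≤ 1 := by
    have := norm_nonneg a
    nlinarith
  have ha0 : 0 ≤ ‖a‖ ^ 2 := by positivity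
  have h3 : |‖a‖ ^ 2 * (w' - w)| ≤ 6 * η * w := by
    rw [abs_mul, abs_of_nonneg ha0]
    have := abs_nonneg (w' - w)
    nlinarith
  rw [id]
  have e : w - ‖a‖ ^ 2 * w' + 2 * (a * (starRingEnd ℂ) (d * b' - b * d')).re -
      (1 - ‖a‖ ^ 2) * w = -(‖a‖ ^ 2 * (w' - w)) + 2 * (a * (starRingEnd ℂ) (d * b' - b * d')).re := by
    ring
  rw [e]
  have hηw : 0 ≤ η * w := mul_nonneg h0 hw.le
  rw [abs_le] at h2 h3 ⊢
  constructor <;> linarith [h2.1, h2.2, h3.1, h3.2]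

/-- the step off the circle: numerator -/
lemma Close.num (h : Close b d b' d' η) (h0 : 0 ≤ η) (h1 : η ≤ 1 / 10) :
    ‖(b + a * (starRingEnd ℂ) d') * d - b * (d + a * (starRingEnd ℂ) b')‖ ≤
      ‖a‖ * ((1 + 5 / 2 * η) * (‖d‖ ^ 2 - ‖b‖ ^ 2)) := by
  obtain ⟨_, hS, _⟩ := h.est h0 h1
  have hw := ann_pos h.lt
  have e : (b + a * (starRingEnd ℂ) d') * d - b * (d + a * (starRingEnd ℂ) b') =
      a * (starRingEnd ℂ) ((starRingEnd ℂ) d * d' - (starRingEnd ℂ) b * b') := by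
    simp only [map_sub, map_mul, Complex.conj_conj]; ring
  rw [e, norm_mul, Complex.norm_conj]
  refine mul_le_mul_of_nonneg_left ?_ (norm_nonneg _)
  have h2 : (starRingEnd ℂ) d * d' - (starRingEnd ℂ) b * b' = ((‖d‖ ^ 2 - ‖b‖ ^ 2 : ℝ) : ℂ) +
      ((starRingEnd ℂ) d * d' - (starRingEnd ℂ) b * b' - ((‖d‖ ^ 2 - ‖b‖ ^ 2 : ℝ) : ℂ)) := by ring
  rw [h2]
  refine (norm_add_le _ _).trans ?_
  rw [Complex.norm_real, Real.norm_of_nonneg hw.le]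
  linarith

/-- the step off the circle: denominator -/
lemma Close.den (h : Close b d b' d' η) (h0 : 0 ≤ η) (h1 : η ≤ 1 / 10) (ha : ‖a‖ ≤ 1) :
    (1 - 5 / 4 * η) * (‖d‖ ^ 2 - ‖b‖ ^ 2) ≤
    ‖(starRingEnd ℂ) d * (d + a * (starRingEnd ℂ) b') -
      (starRingEnd ℂ) b * (b + a * (starRingEnd ℂ) d')‖ := by
  obtain ⟨hX, _, _⟩ := h.est h0 h1
  have hw := ann_pos h.lt
  have e : (starRingEnd ℂ) d * (d + a * (starRingEnd ℂ) b') -
      (starRingEnd ℂ) b * (b + a * (starRingEnd ℂ) d') =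
      ((‖d‖ ^ 2 - ‖b‖ ^ 2 : ℝ) : ℂ) + a * (starRingEnd ℂ) (d * b' - b * d') := by
    push_cast
    rw [← Complex.conj_mul', ← Complex.conj_mul']
    simp only [map_sub, map_mul]; ring
  rw [e]
  have h2 : ‖a * (starRingEnd ℂ) (d * b' - b * d')‖ ≤ 5 / 4 * η * (‖d‖ ^ 2 - ‖b‖ ^ 2) := by
    rw [norm_mul, Complex.norm_conj]
    have := norm_nonneg (d * b' - b * d')
    have := norm_nonneg a
    nlinarith
  have h3 : ‖((‖d‖ ^ 2 - ‖b‖ ^ 2 : ℝ) : ℂ)‖ ≤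
      ‖((‖d‖ ^ 2 - ‖b‖ ^ 2 : ℝ) : ℂ) + a * (starRingEnd ℂ) (d * b' - b * d')‖ +
      ‖a * (starRingEnd ℂ) (d * b' - b * d')‖ := by
    have := norm_sub_le (((‖d‖ ^ 2 - ‖b‖ ^ 2 : ℝ) : ℂ) + a * (starRingEnd ℂ) (d * b' - b * d'))
      (a * (starRingEnd ℂ) (d * b' - b * d'))
    rwa [add_sub_cancel_right] at this
  rw [Complex.norm_real, Real.norm_of_nonneg hw.le] at h3
  linarith

end

end Pool.Agent.Helper29.QF
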