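import Pool.Agent.Helper29.QF.JJ

/-! Sizes of `ee` and `Ps`. -/

namespace Pool.Agent.Helper29.QF

open Complex Metric Set Polynomial
open Pool.Agent.Helper81.QF
open Pool.Agent.Helper84.Lam (YD lamD LL L1 ps lamD_ne_zero lamD_ne_one YD_lower diff_lamD)

lemma geom_le_pow (l : ℕ) {x : ℝ} (hx : 0 ≤ x) :
    ∑ i ∈ Finset.range (l + 1), x ^ i ≤ (1 + x) ^ l := by
  induction l with
  | zero => simp
  | succ k ih =>
    rw [Finset.sum_range_succ]
    have h0 : (1 + x) ^ (k + 1) = (1 + x) ^ k + x * (1 + x) ^ k := by ring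
    have h1 : x ^ (k + 1) ≤ x * (1 + x) ^ k := by
      rw [pow_succ, mul_comm]
      exact mul_le_mul_of_nonneg_left (pow_le_pow_left₀ hx (by linarith) k) hx
    rw [h0]
    exact add_le_add ih h1

/-- `|Ps| ≤ ee` -/
theorem Ps_le_ee (l : ℕ) (v : ℂ) : ‖Ps l v‖ ≤ ee l v := by
  unfold Ps ee
  have h1 : (1 : ℂ) - lamD v ^ (l + 1) = (1 - lamD v) * ∑ i ∈ Finset.range (l + 1), lamD v ^ i := by
    rw [mul_neg_geom_sum]
  rw [h1, norm_mul]
  refine mul_le_mul_of_nonneg_left ?_ (norm_nonneg _)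
  calc ‖∑ i ∈ Finset.range (l + 1), lamD v ^ i‖ ≤ ∑ i ∈ Finset.range (l + 1), ‖lamD v‖ ^ i := by
        refine (norm_sum_le _ _).trans (le_of_eq ?_)
        simp
    _ ≤ (1 + ‖lamD v‖) ^ l := geom_le_pow l (norm_nonneg _)
    _ ≤ hD v ^ l := by
        refine pow_le_pow_left₀ (by positivity) ?_ l
        unfold hD
        have := norm_nonneg (1 - lamD v)
        linarith

lemma log_hD_nonneg (v : ℂ) : 0 ≤ Real.log (hD v) := Real.log_nonneg (hD_one_le v)

lemma log_hD_le {v : ℂ} (h : ‖v‖ < 1) : Real.log (hD v) ≤ 9 * YD v := by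
  have hY := YD_lower h
  have h1 := (Pool.Agent.Helper84.Lam.log_le_YD h).1
  have hl : 0 < ‖lamD v‖ := norm_pos_iff.2 (lamD_ne_zero h)
  have h2 : hD v ≤ 2 + 2 * ‖lamD v‖ := by
    unfold hD
    have := norm_sub_le (1 : ℂ) (lamD v)
    rw [norm_one] at this
    linarith
  have h3 : ‖lamD v‖ ≤ Real.exp (7 * YD v) := by
    rw [← Real.exp_log hl]
    exact Real.exp_le_exp.2 (abs_le.1 h1).2
  have h4 : 1 ≤ Real.exp (7 * YD v) := Real.one_le_exp (by linarith)
  have h5 : hD v ≤ 4 * Real.exp (7 * YD v) := by linarith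
  have h6 : (4 : ℝ) ≤ Real.exp (2 * YD v) := by
    have h7 : Real.exp 1.6 ≤ Real.exp (2 * YD v) := Real.exp_le_exp.2 (by linarith)
    refine le_trans ?_ h7
    have h8 : Real.exp 1.6 = Real.exp 1 * Real.exp 0.6 := by rw [← Real.exp_add]; norm_num
    have h9 := Real.exp_one_gt_d9
    have h10 := Real.add_one_le_exp (0.6 : ℝ)
    rw [h8]
    nlinarith
  have h11 : hD v ≤ Real.exp (9 * YD v) := by
    have e : Real.exp (9 * YD v) = Real.exp (2 * YD v) * Real.exp (7 * YD v) := by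
      rw [← Real.exp_add]; congr 1; ring
    rw [e]
    have := Real.exp_pos (7 * YD v)
    nlinarith
  calc Real.log (hD v) ≤ Real.log (Real.exp (9 * YD v)) := Real.log_le_log (hD_pos v) h11
    _ = 9 * YD v := Real.log_exp _

/-- `|log ee| ≤ (7 + 9 l) YD` -/
theorem abs_log_ee (l : ℕ) {v : ℂ} (h : ‖v‖ < 1) : |Real.log (ee l v)| ≤ (7 + 9 * l) * YD v := by
  have h1 := (Pool.Agent.Helper84.Lam.log_le_YD h).2
  have h2 := log_hD_le h
  have h3 := log_hD_nonneg v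
  have h4 : 0 < ‖1 - lamD v‖ := norm_pos_iff.2 (one_sub_lamD_ne h)
  unfold ee
  rw [Real.log_mul h4.ne' (pow_ne_zero _ (hD_pos v).ne'), Real.log_pow]
  have hl : (0 : ℝ) ≤ l := Nat.cast_nonneg l
  refine (abs_add_le _ _).trans ?_
  rw [abs_of_nonneg (mul_nonneg hl h3)]
  have := mul_le_mul_of_nonneg_left h2 hl
  linarith

end Pool.Agent.Helper29.QF
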