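import Pool.Agent.Helper29.QF.JJ
import Pool.Agent.Helper29.QF.Cut2

/-! The Szego coefficient `g = r z^(N-kd) χ` and the new pair. -/

namespace Pool.Agent.Helper29.QF

open Complex Metric Set Polynomial
open Pool.Agent.Helper81.QF
open Pool.Agent.Helper84.Lam (YD ps)

/-- the coefficient -/
noncomputable def gg (r : ℝ) (N n p : ℕ) (v : ℂ → ℝ) : ℂ[X] :=
  C (r : ℂ) * X ^ (N - kd n p) * chi n p v

lemma gg_eval (r : ℝ) (N n p : ℕ) (v : ℂ → ℝ) (z : ℂ) :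
    (gg r N n p v).eval z = r * z ^ (N - kd n p) * (chi n p v).eval z := by
  unfold gg
  simp

lemma gg_circle {r : ℝ} {N n p : ℕ} {v : ℂ → ℝ} (hN : kd n p ≤ N) (hv : Measurable v) {V : ℝ}
    (hb : ∀ w : ℂ, ‖w‖ = 1 → |v w| ≤ V) {z : ℂ} (hz : ‖z‖ = 1) :
    (gg r N n p v).eval z = z ^ N * ((r * cf n p v z : ℝ) : ℂ) := by
  rw [gg_eval, chi_circle hv hb hz]
  have : z ^ N = z ^ (N - kd n p) * z ^ kd n p := by rw [← pow_add]; congr 1; omega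
  rw [this]
  push_cast
  ring

lemma gg_norm {r : ℝ} {N n p : ℕ} {v : ℂ → ℝ} (hN : kd n p ≤ N) (hv : Measurable v) {V : ℝ}
    (hb : ∀ w : ℂ, ‖w‖ = 1 → |v w| ≤ V) {z : ℂ} (hz : ‖z‖ = 1) :
    ‖(gg r N n p v).eval z‖ = |r| * |cf n p v z| := by
  rw [gg_circle hN hv hb hz, norm_mul, norm_pow, hz, one_pow, one_mul, Complex.norm_real,
    Real.norm_eq_abs, abs_mul]

lemma gg_natDegree (r : ℝ) (N n p : ℕ) (v : ℂ → ℝ) (hN : kd n p ≤ N) :
    (gg r N n p v).natDegree ≤ N + kd n p := by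
  unfold gg
  refine natDegree_mul_le.trans ?_
  have h1 := natDegree_C_mul_X_pow_le (r : ℂ) (N - kd n p)
  have h2 := chi_natDegree n p v
  omega

lemma gg_zero {r : ℝ} {N n p : ℕ} {v : ℂ → ℝ} (hN : kd n p < N) : (gg r N n p v).eval 0 = 0 := by
  rw [gg_eval, zero_pow (by omega)]
  simp

/-- bound on the closed disc with the power of `z` -/
lemma gg_disc {r : ℝ} {N n p : ℕ} {v : ℂ → ℝ} (hn : 1 ≤ n) (hv : Measurable v) {V : ℝ}
    (hb : ∀ w : ℂ, ‖w‖ = 1 → |v w| ≤ V) {z : ℂ} (hz : ‖z‖ ≤ 1) :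
    ‖(gg r N n p v).eval z‖ ≤ |r| * V * ‖z‖ ^ (N - kd n p) := by
  rw [gg_eval, norm_mul, norm_mul, norm_pow, Complex.norm_real, Real.norm_eq_abs]
  have h1 := Pool.Agent.Helper58.LD.norm_le_of_circle (poly_an (chi n p v) _) (M := V)
    (fun w hw => chi_disc hn p hv hb hw) hz
  have h2 : 0 ≤ |r| * ‖z‖ ^ (N - kd n p) := by positivity
  calc |r| * ‖z‖ ^ (N - kd n p) * ‖(chi n p v).eval z‖ ≤ |r| * ‖z‖ ^ (N - kd n p) * V :=
        mul_le_mul_of_nonneg_left h1 h2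
    _ = |r| * V * ‖z‖ ^ (N - kd n p) := by ring

/-- smallness near an inactive point, also inside the disc -/
lemma gg_tail {r : ℝ} {N n p : ℕ} {v : ℂ → ℝ} (hn : 1 ≤ n) (hp : 1 ≤ p) (hv : Measurable v) {V : ℝ}
    (hb : ∀ w : ℂ, ‖w‖ = 1 → |v w| ≤ V) {z : ℂ} (hz : ‖z‖ ≤ 1) {δ : ℝ} (hδ : 0 < δ)
    (h0 : ∀ w : ℂ, ‖w‖ = 1 → ‖w - z‖ < δ → v w = 0) :
    ‖(gg r N n p v).eval z‖ ≤ |r| * (72 * Real.pi * (8 / (n * δ)) ^ (2 * p - 2) * V) := by
  rw [gg_eval, norm_mul, norm_mul, norm_pow, Complex.norm_real, Real.norm_eq_abs]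
  have hz1 : ‖z‖ ≤ 1 + 1 / (n : ℝ) := by
    have : 0 ≤ 1 / (n : ℝ) := by positivity
    linarith
  have h1 := chi_tail2 hn hp hv hb hz1 hδ h0
  have h2 : ‖z‖ ^ (N - kd n p) ≤ 1 := pow_le_one₀ (norm_nonneg _) hz
  have h3 : |r| * ‖z‖ ^ (N - kd n p) ≤ |r| := by
    have := abs_nonneg r
    nlinarith
  exact mul_le_mul h3 h1 (norm_nonneg _) (abs_nonneg _)

/-- tail number: `δ = 22/n` gives `e^{-p}` (up to the factor `2000`) -/
lemma tail_num {n p : ℕ} (hn : 1 ≤ n) (hp : 1 ≤ p) :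
    72 * Real.pi * (8 / ((n : ℝ) * (22 / n))) ^ (2 * p - 2) ≤ 2000 * Real.exp (-p) := by
  have hn0 : (0 : ℝ) < n := by exact_mod_cast hn
  have e1 : 8 / ((n : ℝ) * (22 / n)) = 4 / 11 := by field_simp; norm_num
  rw [e1]
  have h1 : (4 / 11 : ℝ) ^ 2 ≤ Real.exp (-1) := by
    have h2 : Real.exp 1 < 2.7182818286 := Real.exp_one_lt_d9
    rw [Real.exp_neg]
    have h3 : (2.7182818286 : ℝ)⁻¹ ≤ (Real.exp 1)⁻¹ := inv_anti₀ (Real.exp_pos 1) h2.le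
    refine le_trans ?_ h3
    norm_num
  have h4 : (4 / 11 : ℝ) ^ (2 * p - 2) ≤ Real.exp (-1) ^ (p - 1) := by
    have : 2 * p - 2 = 2 * (p - 1) := by omega
    rw [this, pow_mul]
    exact pow_le_pow_left₀ (by norm_num) h1 _
  have h5 : Real.exp (-1) ^ (p - 1) = Real.exp 1 * Real.exp (-p) := by
    rw [← Real.exp_nat_mul, ← Real.exp_add]
    congr 1
    rw [Nat.cast_sub hp]
    push_cast
    ring
  have hpi : Real.pi < 3.15 := Real.pi_lt_d2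
  have hpi0 := Real.pi_pos
  have he : Real.exp 1 < 2.7182818286 := Real.exp_one_lt_d9
  have hep := Real.exp_pos (-(p : ℝ))
  calc 72 * Real.pi * (4 / 11) ^ (2 * p - 2) ≤ 72 * Real.pi * (Real.exp 1 * Real.exp (-p)) := by
        rw [← h5]
        exact mul_le_mul_of_nonneg_left h4 (by positivity)
    _ = (72 * Real.pi * Real.exp 1) * Real.exp (-p) := by ring
    _ ≤ 2000 * Real.exp (-p) := by
        refine mul_le_mul_of_nonneg_right ?_ hep.le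
        nlinarith [Real.exp_pos 1]

section
variable {m : ℕ} {b d g : ℂ[X]}

/-- the height near a point of the closed disc -/
theorem YD_near (h : Pair m b d) {s : ℝ} (hs0 : 0 ≤ s)
    (hs : ∀ z : ℂ, ‖z‖ = 1 → ‖nN b d z‖ ≤ s * dl b d z) {x y : ℂ} (hx : ‖x‖ ≤ 1) (hy : ‖y‖ ≤ 1)
    {ρ : ℝ} (hρ : s * ‖x - y‖ ≤ ρ) (h1 : ρ ≤ 1 / 32) :
    |YD (Bq b d y) - YD (Bq b d x)| ≤ 3240 * ρ * YD (Bq b d x) := by
  have h0 : 0 ≤ ρ := (mul_nonneg hs0 (norm_nonneg _)).trans hρ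
  refine Pool.Agent.Helper84.Lam.YD_lip (Bq_lt h hx) (Bq_lt h hy) h0 h1 ?_
  have h2 := (ps_lip h hs0 hs hx hy).trans hρ
  unfold Pool.Agent.Helper84.Lam.ps at h2
  have h3 : 0 < ‖1 - (starRingEnd ℂ) (Bq b d x) * Bq b d y‖ :=
    norm_pos_iff.2 (one_sub_pos (Bq_lt h hx) (Bq_lt h hy))
  rwa [div_le_iff₀ h3] at h2

/-- the new form on the circle -/
lemma dl_step (h : Pair m b d) {z : ℂ} (hz : ‖z‖ = 1) :
    dl (b + g * star m d) (d + g * star m b) z = (1 - ‖g.eval z‖ ^ 2) * dl b d z :=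
  step_identity h.db h.dd hz

/-- the new speed -/
theorem speed_new (h : Pair m b d) {s ρ : ℝ} {k : ℕ} (hk : 1 ≤ k) (hgd : g.natDegree ≤ 2 * k)
    (hs0 : 0 ≤ s)
    (hs : ∀ z : ℂ, ‖z‖ = 1 → ‖nN b d z‖ + ‖vV b d z‖ ≤ s * dl b d z) (hρ : ρ < 1)
    (hg : ∀ z : ℂ, ‖z‖ = 1 → ‖g.eval z‖ ≤ ρ) {z : ℂ} (hz : ‖z‖ = 1) :
    ‖nN (b + g * star m d) (d + g * star m b) z‖ + ‖vV (b + g * star m d) (d + g * star m b) z‖ ≤
      ((2 * s + 8 * k + m) / (1 - ρ)) * dl (b + g * star m d) (d + g * star m b) z := by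
  have hgz := hg z hz
  have hρ0 : 0 ≤ ρ := (norm_nonneg _).trans hgz
  have h1 := speed_step h.db h.dd hz (h.lt z hz) (lt_of_le_of_lt hgz hρ) (hs z hz)
  have h2 := Pool.Agent.Helper58.LD.poly_deriv hk hgd hg hz.le
  refine h1.trans (mul_le_mul_of_nonneg_right ?_ ?_)
  · have h3 : 0 < 1 - ρ := by linarith
    have h4 : 0 < 1 - ‖g.eval z‖ := by linarith
    have hn := norm_nonneg (g.eval z)
    have hk0 : (0 : ℝ) ≤ k := Nat.cast_nonneg k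
    have hm0 : (0 : ℝ) ≤ m := Nat.cast_nonneg m
    have h5 : (1 + ‖g.eval z‖) * s + ‖(derivative g).eval z‖ + m * ‖g.eval z‖ ≤
        2 * s + 8 * k + m := by
      have : 8 * (k : ℝ) * ρ ≤ 8 * k := by nlinarith
      nlinarith
    exact div_le_div₀ (by positivity) h5 h3 (by linarith)
  · rw [dl_step h hz]
    refine mul_nonneg ?_ (dl_pos h hz.le).le
    have hn := norm_nonneg (g.eval z)
    nlinarith

/-- `log` of the new form -/
lemma log_dl_step (h : Pair m b d) {z : ℂ} (hz : ‖z‖ = 1) (hg : ‖g.eval z‖ < 1) :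
    Real.log (dl (b + g * star m d) (d + g * star m b) z) =
      Real.log (1 - ‖g.eval z‖ ^ 2) + Real.log (dl b d z) := by
  rw [dl_step h hz, Real.log_mul ?_ (dl_pos h hz.le).ne']
  have hn := norm_nonneg (g.eval z)
  have : 0 < 1 - ‖g.eval z‖ ^ 2 := by nlinarith
  exact this.ne'

end

end Pool.Agent.Helper29.QF
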